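import Pool.Agent.K3h83.LK.Fin

/-!
# List colourings of the edges of a hypergraph, basic facts
-/

set_option autoImplicit false

namespace Pool.Agent.Run7.h320

open Finset

section
variable {V C : Type} [DecidableEq V] [DecidableEq C]

/-- `φ` is a proper colouring of the edges in `G` with colours of the lists `L` -/
def Pr (G : Finset (Finset V)) (L : Finset V → Finset C) (φ : Finset V → C) : Prop :=
  (∀ e ∈ G, φ e ∈ L e) ∧ ∀ e ∈ G, ∀ f ∈ G, e ≠ f → (e ∩ f).Nonempty → φ e ≠ φ f

/-- the colours of the list of `e` that are still available once `G` is coloured -/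
def red (G : Finset (Finset V)) (L : Finset V → Finset C) (φ : Finset V → C) (e : Finset V) :
    Finset C :=
  L e \ (G.filter (fun f => (f ∩ e).Nonempty)).image φ

theorem glue {G G' : Finset (Finset V)} {L : Finset V → Finset C} {φ ψ : Finset V → C}
    (h1 : Pr G L φ) (h2 : Pr G' (red G L φ) ψ) :
    ∃ χ, Pr (G ∪ G') L χ ∧ (∀ e ∈ G, χ e = φ e) ∧ ∀ e ∈ G', e ∉ G → χ e = ψ e := by
  refine ⟨fun e => if e ∈ G then φ e else ψ e, ⟨?_, ?_⟩, ?_, ?_⟩
  · intro e he
    by_cases hG : e ∈ G
    · simp only [if_pos hG]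
      exact h1.1 e hG
    · simp only [if_neg hG]
      exact (mem_sdiff.1 (h2.1 e ((mem_union.1 he).resolve_left hG))).1
  · intro e he f hf hef hne
    by_cases hG : e ∈ G <;> by_cases hG' : f ∈ G
    · simp only [if_pos hG, if_pos hG']
      exact h1.2 e hG f hG' hef hne
    · simp only [if_pos hG, if_neg hG']
      intro heq
      have := (mem_sdiff.1 (h2.1 f ((mem_union.1 hf).resolve_left hG'))).2
      apply this
      rw [← heq]
      exact mem_image_of_mem _ (mem_filter.2 ⟨hG, hne⟩)
    · simp only [if_neg hG, if_pos hG']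
      intro heq
      have := (mem_sdiff.1 (h2.1 e ((mem_union.1 he).resolve_left hG))).2
      apply this
      rw [heq]
      exact mem_image_of_mem _ (mem_filter.2 ⟨hG', by rwa [inter_comm]⟩)
    · simp only [if_neg hG, if_neg hG']
      exact h2.2 e ((mem_union.1 he).resolve_left hG) f ((mem_union.1 hf).resolve_left hG') hef hne
  · intro e he
    simp only [if_pos he]
  · intro e _ he
    simp only [if_neg he]

/-- greedy colouring in the order of decreasing weights -/
theorem greedy_ord [Nonempty C] (L : Finset V → Finset C) (w : Finset V → ℕ) :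
    ∀ n : ℕ, ∀ G : Finset (Finset V), G.card = n →
      (∀ e ∈ G, (G.filter (fun f => f ≠ e ∧ (f ∩ e).Nonempty ∧ w e ≤ w f)).card < (L e).card) →
      ∃ φ, Pr G L φ := by
  intro n
  induction n with
  | zero =>
    intro G hG _
    rw [card_eq_zero] at hG
    subst hG
    exact ⟨fun _ => Classical.arbitrary C, by simp, by simp⟩
  | succ n ih =>
    intro G hG h
    have hne : G.Nonempty := card_pos.1 (by omega)
    obtain ⟨e, he, hmin⟩ := exists_min_image G w hne
    obtain ⟨φ, h1, h2⟩ := ih (G.erase e) (by rw [card_erase_of_mem he]; omega) (by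
      intro f hf
      refine lt_of_le_of_lt (card_le_card ?_) (h f (mem_of_mem_erase hf))
      exact filter_subset_filter _ (erase_subset _ _))
    have h4 := h e he
    set F := G.filter (fun f => f ≠ e ∧ (f ∩ e).Nonempty ∧ w e ≤ w f) with hF
    have h5 : ∃ c ∈ L e, c ∉ F.image φ := by
      by_contra hcon
      push Not at hcon
      have h6 : (L e).card ≤ (F.image φ).card := card_le_card hcon
      have h7 := card_image_le (s := F) (f := φ)
      omega
    obtain ⟨c, hc, hcF⟩ := h5
    refine ⟨Function.update φ e c, fun f hf => ?_, ?_⟩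
    · by_cases hfe : f = e
      · subst hfe
        rw [Function.update_self]
        exact hc
      · rw [Function.update_of_ne hfe]
        exact h1 f (mem_erase.2 ⟨hfe, hf⟩)
    · intro f hf g hg hfg hne'
      by_cases hfe : f = e
      · subst hfe
        rw [Function.update_self, Function.update_of_ne (Ne.symm hfg)]
        intro hh
        exact hcF (mem_image.2 ⟨g, mem_filter.2 ⟨hg, Ne.symm hfg, by rwa [inter_comm],
          hmin g hg⟩, hh.symm⟩)
      · rw [Function.update_of_ne hfe]
        by_cases hge : g = e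
        · subst hge
          rw [Function.update_self]
          intro hh
          exact hcF (mem_image.2 ⟨f, mem_filter.2 ⟨hf, hfe, hne', hmin f hf⟩, hh⟩)
        · rw [Function.update_of_ne hge]
          exact h2 f (mem_erase.2 ⟨hfe, hf⟩) g (mem_erase.2 ⟨hge, hg⟩) hfg hne'

/-- greedy colouring -/
theorem greedy [Nonempty C] (L : Finset V → Finset C) (G : Finset (Finset V))
    (h : ∀ e ∈ G, (G.filter (fun f => f ≠ e ∧ (f ∩ e).Nonempty)).card < (L e).card) :
    ∃ φ, Pr G L φ := by
  refine greedy_ord L (fun _ => 0) G.card G rfl ?_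
  intro e he
  refine lt_of_le_of_lt (card_le_card ?_) (h e he)
  intro f hf
  rw [mem_filter] at hf ⊢
  exact ⟨hf.1, hf.2.1, hf.2.2.1⟩

/-- transfer of the colours to natural numbers -/
theorem transfer {C' : Type} (H : Finset (Finset V)) (k : ℕ)
    (h : ∀ L : Finset V → Finset ℕ, (∀ e ∈ H, k ≤ (L e).card) → ∃ φ, Pr H L φ)
    (L : {e : Finset V // e ∈ H} → Finset C') (hL : ∀ e, k ≤ (L e).card) :
    ∃ φ : {e : Finset V // e ∈ H} → C', (∀ e, φ e ∈ L e) ∧
      ∀ e f : {e : Finset V // e ∈ H}, e ≠ f → ¬ Disjoint e.1 f.1 → φ e ≠ φ f := by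
  classical
  obtain ⟨S, hS⟩ : ∃ S : Finset C', S = univ.biUnion L := ⟨_, rfl⟩
  have hLS : ∀ e, L e ⊆ S := by
    intro e c hc
    rw [hS, mem_biUnion]
    exact ⟨e, mem_univ _, hc⟩
  let g : C' → ℕ := fun c => if h : c ∈ S then (S.equivFin ⟨c, h⟩ : ℕ) else 0
  have hg : Set.InjOn g S := by
    intro a ha b hb hab
    rw [mem_coe] at ha hb
    simp only [g, dif_pos ha, dif_pos hb] at hab
    have := S.equivFin.injective (Fin.ext hab)
    exact congrArg Subtype.val this
  obtain ⟨φ, h1, h2⟩ := h (fun e => if h : e ∈ H then (L ⟨e, h⟩).image g else ∅) (by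
    intro e he
    simp only [dif_pos he]
    rw [card_image_of_injOn]
    · exact hL _
    · exact hg.mono (by exact_mod_cast hLS _))
  have h3 : ∀ e : {e : Finset V // e ∈ H}, ∃ c ∈ L e, g c = φ e.1 := by
    intro e
    have := h1 e.1 e.2
    simp only [dif_pos e.2] at this
    exact mem_image.1 this
  choose ψ hψ1 hψ2 using h3
  refine ⟨ψ, hψ1, ?_⟩
  intro e f hef hd heq
  refine h2 e.1 e.2 f.1 f.2 (fun hh => hef (Subtype.ext hh)) ?_ ?_
  · rwa [← not_disjoint_iff_nonempty_inter]
  · rw [← hψ2 e, ← hψ2 f, heq]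

end

end Pool.Agent.Run7.h320
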