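import Pool.Agent.Run7.h320.Star

/-!
# List colouring with weights and some slack
-/

set_option autoImplicit false
set_option linter.unusedSectionVars false
set_option linter.unusedVariables false

namespace Pool.Agent.Run7.h320

open Finset K3h83.LK K3h83.CI H115R4

/-- for large `D` the local lemma applies -/
theorem num_E (a : ℝ) (ha0 : 0 < a) (M : ℕ) (hM : 1 ≤ M) :
    ∃ D₀ : ℕ, ∀ D : ℕ, D₀ ≤ D → 8 * Real.exp (-(a * D)) * ((M * D ^ 2 : ℕ) : ℝ) ^ 7 ≤ 1 := by
  have h1 := Real.tendsto_pow_mul_exp_neg_atTop_nhds_zero 14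
  have h2 : Filter.Tendsto (fun D : ℕ => a * (D : ℝ)) Filter.atTop Filter.atTop :=
    Filter.Tendsto.const_mul_atTop ha0 tendsto_natCast_atTop_atTop
  have h3 := h1.comp h2
  have hM0 : (0 : ℝ) < M := by exact_mod_cast (by omega : 0 < M)
  have h4 := h3.eventually_lt_const (u := a ^ 14 / (8 * (M : ℝ) ^ 7)) (by positivity)
  obtain ⟨D₀, hD₀⟩ := Filter.eventually_atTop.1 h4
  refine ⟨D₀, fun D hD => ?_⟩
  have h5 := hD₀ D hD
  simp only [Function.comp_apply] at h5
  push_cast
  rw [mul_pow, lt_div_iff₀ (by positivity)] at h5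
  have e2 : 8 * Real.exp (-(a * D)) * ((M : ℝ) * (D : ℝ) ^ 2) ^ 7 =
      (a ^ 14 * (D : ℝ) ^ 14 * Real.exp (-(a * D)) * (8 * (M : ℝ) ^ 7)) / a ^ 14 := by
    field_simp
  rw [e2, div_le_one (by positivity)]
  exact h5.le

/-- A linear hypergraph of bounded rank can be coloured from lists if there are weights of the pairs of
an edge and a colour of its list such that every edge has total weight at least `1 + ε` and every
colour has total weight at most `1` at every vertex. -/
theorem wlist (r : ℕ) (hr : 1 ≤ r) (ε : ℝ) (hε0 : 0 < ε) (hε1 : ε ≤ 1) (K : ℝ) (hK : 0 < K) :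
    ∃ D₀ : ℕ, ∀ D : ℕ, D₀ ≤ D → ∀ (V : Type) [Fintype V] [DecidableEq V] (H : Finset (Finset V)),
    (∀ e ∈ H, e.Nonempty) → (∀ e ∈ H, e.card ≤ r) →
    (∀ e ∈ H, ∀ f ∈ H, e ≠ f → (e ∩ f).card ≤ 1) → (∀ v, (at' H v).card ≤ D) →
    ∀ (C : Type) [DecidableEq C] [Nonempty C] (L : Finset V → Finset C) (w : Finset V → C → ℝ),
    (∀ e ∈ H, (L e).card ≤ D) → (∀ e ∈ H, ∀ c ∈ L e, 0 ≤ w e c) →
    (∀ e ∈ H, ∀ c ∈ L e, w e c ≤ K / D) →
    (∀ v c, ∑ e ∈ (at' H v).filter (fun e => c ∈ L e), w e c ≤ 1) →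
    (∀ e ∈ H, 1 + ε ≤ ∑ c ∈ L e, w e c) → ∃ φ, Pr H L φ := by
  classical
  obtain ⟨κ₀, θ, hκ₀, hθ, H0⟩ := LK_all (r := r) hr (ε := ε) (τ := 1 + ε) hε0 hε1 le_rfl
  obtain ⟨D₁, hD₁⟩ := num_E (θ / K) (by positivity) (r + 2) (by omega)
  refine ⟨max (max D₁ 1) ⌈K / κ₀⌉₊, ?_⟩
  intro D hDD V _ _ H hne hrank hlin hat C _ _ L w hLc hw0 hwK hwv hwe
  have g1 : D₁ ≤ D := (le_max_left _ _).trans ((le_max_left _ _).trans hDD)
  have g2 : 1 ≤ D := (le_max_right _ _).trans ((le_max_left _ _).trans hDD)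
  have g3 : K / κ₀ ≤ (D : ℝ) := (Nat.le_ceil _).trans (by
    exact_mod_cast (le_max_right _ _).trans hDD)
  have hDR : (1 : ℝ) ≤ D := by exact_mod_cast g2
  have hD0 : (0 : ℝ) < D := by linarith
  have hpos : ∀ e ∈ H, 0 < ∑ c ∈ L e, w e c := fun e he => by
    have := hwe e he
    linarith
  set Kc : Finset C := H.biUnion L with hKc
  set E := Kc.equivFin with hE
  set W : Fin Kc.card → {e : Finset V // e ∈ H} → ℝ := fun c e =>
    if (E.symm c).1 ∈ L e.1 then w e.1 (E.symm c).1 * ((1 + ε) / ∑ c ∈ L e.1, w e.1 c) else 0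
    with hW
  have hsc1 : ∀ e ∈ H, (1 + ε) / ∑ c ∈ L e, w e c ≤ 1 := by
    intro e he
    rw [div_le_one (hpos e he)]
    exact hwe e he
  have hsc0 : ∀ e ∈ H, 0 ≤ (1 + ε) / ∑ c ∈ L e, w e c := fun e he =>
    div_nonneg (by linarith) (hpos e he).le
  have hWle : ∀ c e, W c e ≤ if (E.symm c).1 ∈ L e.1 then w e.1 (E.symm c).1 else 0 := by
    intro c e
    simp only [hW]
    split_ifs with h
    · exact mul_le_of_le_one_right (hw0 e.1 e.2 _ h) (hsc1 e.1 e.2)
    · exact le_refl _
  have hW0 : ∀ c e, 0 ≤ W c e := by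
    intro c e
    simp only [hW]
    split_ifs with h
    · exact mul_nonneg (hw0 e.1 e.2 _ h) (hsc0 e.1 e.2)
    · exact le_refl _
  have hWK : ∀ c e, W c e ≤ K / D := by
    intro c e
    refine (hWle c e).trans ?_
    split_ifs with h
    · exact hwK e.1 e.2 _ h
    · positivity
  set N : V → Finset V := fun v => insert v (clN H v) with hNdef
  have hmemN : ∀ u v, u ∈ N v ↔ u = v ∨ ∃ e ∈ H, v ∈ e ∧ u ∈ e := by
    intro u v
    simp only [hNdef, mem_insert, clN, mem_biUnion, mem_filter, id]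
    constructor
    · rintro (h | ⟨e, ⟨h1, h2⟩, h3⟩)
      · exact Or.inl h
      · exact Or.inr ⟨e, h1, h2, h3⟩
    · rintro (h | ⟨e, h1, h2, h3⟩)
      · exact Or.inl h
      · exact Or.inr ⟨e, ⟨h1, h2⟩, h3⟩
  have hedges : ∀ v, (univ.filter (fun e : {e : Finset V // e ∈ H} => v ∈ e.1)).card ≤ D := by
    intro v
    refine le_trans (card_le_card_of_injOn (fun e => e.1) ?_ ?_) (hat v)
    · intro e he
      rw [mem_coe, mem_filter] at he
      exact mem_at.2 ⟨e.2, he.2⟩
    · intro a _ b _ h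
      exact Subtype.ext h
  have hD3 : D ≤ (r + 2) * D ^ 2 := by nlinarith
  have hCf : Cf Kc.card ((r + 2) * D ^ 2) N (fun e : {e : Finset V // e ∈ H} => e.1) W r
      (K / D) (1 + ε) := by
    refine ⟨fun v => (hmemN v v).2 (Or.inl rfl), fun u v huv => ?_, fun v => ?_,
      fun e u hu v hv => (hmemN u v).2 (Or.inr ⟨e.1, e.2, hv, hu⟩),
      fun e => hne e.1 e.2, fun v => (hedges v).trans hD3, fun v => ?_,
      fun c => ⟨hW0 c, fun e => hne e.1 e.2, fun e => hrank e.1 e.2, fun v => ?_,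
        fun a b hab => ?_, hWK c⟩, fun e => ?_⟩
    · rw [hmemN] at huv ⊢
      rcases huv with h | ⟨e, h1, h2, h3⟩
      · exact Or.inl h.symm
      · exact Or.inr ⟨e, h1, h3, h2⟩
    · have h1 := card_insert_le v (clN H v)
      have h2 : (clN H v).card ≤ D * r := by
        refine (card_biUnion_le_card_mul _ _ r ?_).trans (Nat.mul_le_mul_right _ (hat v))
        intro e he
        exact hrank e (mem_filter.1 he).1
      have h3 : D * r + 1 ≤ (r + 2) * D ^ 2 := by nlinarith
      exact h1.trans (by omega)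
    · -- colours at `v`
      have h1 : (univ.filter (fun c => ∃ e : {e : Finset V // e ∈ H}, v ∈ e.1 ∧ 0 < W c e)).card ≤
          ((at' H v).biUnion L).card := by
        refine card_le_card_of_injOn (fun c => (E.symm c).1) (fun c hc => ?_)
          (fun c _ c' _ hcc => ?_)
        · have hc' := (mem_filter.1 hc).2
          obtain ⟨e, he1, he2⟩ := hc'
          rw [mem_coe, mem_biUnion]
          refine ⟨e.1, mem_at.2 ⟨e.2, he1⟩, ?_⟩
          simp only [hW] at he2
          by_contra hh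
          rw [if_neg hh] at he2
          exact absurd he2 (lt_irrefl _)
        · have := Subtype.val_injective hcc
          exact E.symm.injective this
      refine h1.trans ((card_biUnion_le_card_mul _ _ D ?_).trans ?_)
      · intro e he
        exact hLc e (mem_at.1 he).1
      · calc (at' H v).card * D ≤ D * D := Nat.mul_le_mul_right _ (hat v)
          _ ≤ (r + 2) * D ^ 2 := by nlinarith
    · unfold deg
      have h1 : ∑ e ∈ univ.filter (fun e : {e : Finset V // e ∈ H} => v ∈ e.1), W c e ≤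
          ∑ e ∈ univ.filter (fun e : {e : Finset V // e ∈ H} => v ∈ e.1),
            (if (E.symm c).1 ∈ L e.1 then w e.1 (E.symm c).1 else 0) :=
        sum_le_sum fun e _ => hWle c e
      refine h1.trans (le_trans (le_of_eq ?_) (hwv v (E.symm c).1))
      rw [sum_filter, sum_filter]
      have h2 := Finset.sum_coe_sort H (fun e => if v ∈ e then
        (if (E.symm c).1 ∈ L e then w e (E.symm c).1 else 0) else 0)
      rw [h2, ← sum_filter]
      rfl
    · unfold codeg
      by_cases hex : ∃ e : {e : Finset V // e ∈ H}, a ∈ e.1 ∧ b ∈ e.1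
      · obtain ⟨e, ha, hb⟩ := hex
        rw [sum_eq_single_of_mem e (mem_filter.2 ⟨mem_univ _, ha, hb⟩)]
        · exact hWK c e
        · intro f hf hfe
          exfalso
          have h1 := (mem_filter.1 hf).2
          have h2 := hlin e.1 e.2 f.1 f.2 (fun hh => hfe (Subtype.ext hh.symm))
          have h3 : ({a, b} : Finset V) ⊆ e.1 ∩ f.1 := by
            intro y hy
            rw [mem_insert, mem_singleton] at hy
            rw [mem_inter]
            rcases hy with rfl | rfl
            · exact ⟨ha, h1.1⟩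
            · exact ⟨hb, h1.2⟩
          have h4 := card_le_card h3
          rw [card_pair hab] at h4
          omega
      · rw [sum_eq_zero]
        · positivity
        · intro e he
          exact absurd ⟨e, (mem_filter.1 he).2⟩ hex
    · -- total
      simp only [hW]
      rw [← Equiv.sum_comp E]
      simp only [Equiv.symm_apply_apply]
      have h1 := Finset.sum_coe_sort Kc
        (fun x => if x ∈ L e.1 then w e.1 x * ((1 + ε) / ∑ c ∈ L e.1, w e.1 c) else 0)
      rw [h1, ← sum_filter]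
      have h2 : Kc.filter (fun x => x ∈ L e.1) = L e.1 := by
        ext x
        rw [mem_filter]
        exact ⟨fun h => h.2, fun h => ⟨mem_biUnion.2 ⟨e.1, e.2, h⟩, h⟩⟩
      rw [h2, ← sum_mul]
      have := (hpos e.1 e.2).ne'
      field_simp
  obtain ⟨ψ, hψ1, hψ2⟩ := H0 V {e : Finset V // e ∈ H} Kc.card ((r + 2) * D ^ 2) N
    (fun e => e.1) W (K / D) (by positivity) (by
      rw [div_le_iff₀ hκ₀] at g3
      rw [div_le_iff₀ hD0]
      linarith) hCf (by
      have h1 := hD₁ D g1
      have h2 : θ / (K / D) = θ / K * D := by field_simp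
      rw [h2]
      exact h1)
  have hψL : ∀ e, (E.symm (ψ e)).1 ∈ L e.1 := by
    intro e
    have h1 := hψ1 e
    simp only [hW] at h1
    by_contra hcon
    rw [if_neg hcon] at h1
    exact lt_irrefl _ h1
  refine ⟨fun e => if h : e ∈ H then (E.symm (ψ ⟨e, h⟩)).1 else Classical.arbitrary C, ?_, ?_⟩
  · intro e he
    simp only [dif_pos he]
    exact hψL ⟨e, he⟩
  · intro e he f hf hef hn
    simp only [dif_pos he, dif_pos hf]
    intro hcc
    have h3 := Subtype.val_injective hcc
    have h4 := E.symm.injective h3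
    refine hψ2 ⟨e, he⟩ ⟨f, hf⟩ (fun hh => hef (congrArg Subtype.val hh)) ?_ h4
    obtain ⟨x, hx⟩ := hn
    rw [mem_inter] at hx
    exact not_disjoint_iff.2 ⟨x, hx⟩

end Pool.Agent.Run7.h320
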