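import Pool.Agent.Run7.h320.Pre
import Pool.Agent.Run7.h320.WList

/-!
# Few vertices of large degree
-/

set_option autoImplicit false

namespace Pool.Agent.Run7.h320

open Finset K3h83.LK

section
variable {V C : Type} [DecidableEq V] [DecidableEq C]

omit [DecidableEq C] in
theorem at_lt {H : Finset (Finset V)} (hlin : ∀ e ∈ H, ∀ f ∈ H, e ≠ f → (e ∩ f).card ≤ 1)
    (h2 : ∀ e ∈ H, 2 ≤ e.card) {D : ℕ} (hD1 : 1 ≤ D) (hD : ∀ v, (clN H v).card ≤ D) (v : V) :
    (at' H v).card + 1 ≤ D := by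
  have h1 := budget hlin v
  have h3 := hD v
  have h4 : (at' H v).card ≤ ∑ e ∈ H.filter (fun e => v ∈ e), (e.card - 1) := by
    unfold at'
    rw [card_eq_sum_ones]
    apply sum_le_sum
    intro e he
    have := h2 e (mem_filter.1 he).1
    omega
  omega

/-- the list of an edge `e` after the edges in `F` have been coloured -/
theorem red_ge' {F : Finset (Finset V)} (L : Finset V → Finset C) (φ : Finset V → C)
    (e : Finset V) :
    (L e).card ≤ (red F L φ e).card + ∑ v ∈ e, (at' F v).card := by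
  have h1 : L e ⊆ red F L φ e ∪ e.biUnion (fun v => us F φ v) := by
    intro c hc
    by_cases h : c ∈ red F L φ e
    · exact mem_union_left _ h
    · rw [mem_red] at h
      push Not at h
      obtain ⟨f, hf, ⟨v, hv⟩, rfl⟩ := h hc
      rw [mem_inter] at hv
      exact mem_union_right _ (mem_biUnion.2 ⟨v, hv.2, mem_image_of_mem _ (mem_at.2 ⟨hf, hv.1⟩)⟩)
  have h2 : (e.biUnion (fun v => us F φ v)).card ≤ ∑ v ∈ e, (at' F v).card :=
    card_biUnion_le.trans (sum_le_sum fun v _ => card_image_le)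
  have h3 := (card_le_card h1).trans (card_union_le _ _)
  omega

theorem Pr_sub {G G' : Finset (Finset V)} (h : G ⊆ G') {L L' : Finset V → Finset C}
    (hL : ∀ e ∈ G, L' e ⊆ L e) {φ : Finset V → C} (hφ : Pr G' L' φ) : Pr G L φ :=
  ⟨fun e he => hL e he (hφ.1 e (h he)), fun e he f hf => hφ.2 e (h he) f (h hf)⟩

/-- the version of `meetU` for possibly empty sets `U` -/
theorem meetU' {H : Finset (Finset V)} {L : Finset V → Finset C} {U : Finset V} {n r : ℕ}
    [Nonempty C] (hlin : ∀ e ∈ H, ∀ f ∈ H, e ≠ f → (e ∩ f).card ≤ 1)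
    (hn : ∀ u ∈ U, (at' H u).card + 1 ≤ n)
    (hr : ∀ e ∈ H, e.card ≤ r) (hL : ∀ e ∈ H, n ≤ (L e).card) (hr2 : 2 ≤ r)
    (hbig : 40 * (r * (r * U.card)) ≤ n) :
    ∃ φ, Pr (H.filter (fun e => (e ∩ U).Nonempty)) L φ := by
  rcases U.eq_empty_or_nonempty with rfl | hU
  · refine ⟨fun _ => Classical.arbitrary C, ?_⟩
    have : H.filter (fun e => (e ∩ ∅).Nonempty) = ∅ := by
      rw [filter_eq_empty_iff]
      intro e _
      simp
    rw [this]
    exact ⟨by simp, by simp⟩
  · exact meetU hlin hn hr hL le_rfl hr2 (card_pos.2 hU) hbig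

/-- a version for all `n`: the edges that avoid `U` are coloured greedily -/
theorem transv [Fintype V] [Nonempty C] {H : Finset (Finset V)} {L : Finset V → Finset C}
    {U : Finset V} {D r : ℕ}
    (hlin : ∀ e ∈ H, ∀ f ∈ H, e ≠ f → (e ∩ f).card ≤ 1) (h2 : ∀ e ∈ H, 2 ≤ e.card)
    (hD1 : 1 ≤ D) (hD : ∀ v, (clN H v).card ≤ D)
    (hr : ∀ e ∈ H, e.card ≤ r) (hL : ∀ e ∈ H, D ≤ (L e).card) (hr2 : 2 ≤ r)
    (hbig : 40 * (r * (r * U.card)) ≤ D)
    (hW : ∀ v, v ∉ U →
      2 * r * ((at' H v).filter (fun e => ¬ (e ∩ U).Nonempty)).card ≤ D) :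
    ∃ φ, Pr H L φ := by
  classical
  obtain ⟨φ₁, hφ₁⟩ := meetU' hlin (fun u _ => at_lt hlin h2 hD1 hD u) hr hL hr2 hbig
  set F := H.filter (fun e => (e ∩ U).Nonempty) with hF
  set W := H.filter (fun e => ¬ (e ∩ U).Nonempty) with hWdef
  obtain ⟨q, hq⟩ : ∃ q, q = r * U.card := ⟨_, rfl⟩
  obtain ⟨φ₂, hφ₂⟩ := greedy (red F L φ₁) W (by
    intro e he
    rw [hWdef, mem_filter] at he
    have h3 := red_ge' (F := F) L φ₁ e
    have h4 := hL e he.1
    have h5 := hr e he.1
    have h6 : ∑ v ∈ e, (at' F v).card ≤ q := by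
      calc ∑ v ∈ e, (at' F v).card ≤ ∑ _v ∈ e, U.card := by
            apply sum_le_sum
            intro v hv
            refine at_le hlin (filter_subset _ _) (fun f hf => (mem_filter.1 hf).2) ?_
            intro hvU
            exact he.2 ⟨v, mem_inter.2 ⟨hv, hvU⟩⟩
        _ = e.card * U.card := by rw [sum_const, smul_eq_mul]
        _ ≤ r * U.card := Nat.mul_le_mul_right _ h5
        _ = q := hq.symm
    have h7 : (W.filter (fun f => f ≠ e ∧ (f ∩ e).Nonempty)).card ≤
        ∑ v ∈ e, ((at' H v).filter (fun e => ¬ (e ∩ U).Nonempty)).card := by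
      refine le_trans (card_le_card ?_) card_biUnion_le
      intro f hf
      rw [mem_filter, hWdef, mem_filter] at hf
      obtain ⟨⟨hf1, hf2⟩, -, v, hv⟩ := hf
      rw [mem_inter] at hv
      exact mem_biUnion.2 ⟨v, hv.2, mem_filter.2 ⟨mem_at.2 ⟨hf1, hv.1⟩, hf2⟩⟩
    have h8 : 2 * r * ∑ v ∈ e, ((at' H v).filter (fun e => ¬ (e ∩ U).Nonempty)).card ≤ r * D := by
      rw [mul_sum]
      calc ∑ v ∈ e, 2 * r * ((at' H v).filter (fun e => ¬ (e ∩ U).Nonempty)).card
          ≤ ∑ _v ∈ e, D := by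
            apply sum_le_sum
            intro v hv
            exact hW v (fun hvU => he.2 ⟨v, mem_inter.2 ⟨hv, hvU⟩⟩)
        _ = e.card * D := by rw [sum_const, smul_eq_mul]
        _ ≤ r * D := Nat.mul_le_mul_right _ h5
    have h9 : r * (2 * (W.filter (fun f => f ≠ e ∧ (f ∩ e).Nonempty)).card) ≤ r * D := by
      calc r * (2 * (W.filter (fun f => f ≠ e ∧ (f ∩ e).Nonempty)).card)
          = 2 * r * (W.filter (fun f => f ≠ e ∧ (f ∩ e).Nonempty)).card := by ring
        _ ≤ 2 * r * ∑ v ∈ e, ((at' H v).filter (fun e => ¬ (e ∩ U).Nonempty)).card :=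
            Nat.mul_le_mul_left _ h7
        _ ≤ r * D := h8
    have h10 : 2 * (W.filter (fun f => f ≠ e ∧ (f ∩ e).Nonempty)).card ≤ D :=
      Nat.le_of_mul_le_mul_left h9 (by omega)
    rw [← hq] at hbig
    have h11 : 2 * q ≤ r * q := Nat.mul_le_mul_right _ hr2
    omega)
  obtain ⟨χ, hχ, -, -⟩ := glue hφ₁ hφ₂
  refine ⟨χ, Pr_sub ?_ (fun e _ => Finset.Subset.refl _) hχ⟩
  intro e he
  rw [mem_union, hF, hWdef, mem_filter, mem_filter]
  tauto

end

/-- few vertices of large degree -/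
theorem few (r : ℕ) (hr2 : 2 ≤ r) (ε : ℝ) (hε0 : 0 < ε) (hε1 : ε ≤ 1) :
    ∃ D₀ : ℕ, ∀ D : ℕ, D₀ ≤ D → ∀ (V : Type) [Fintype V] [DecidableEq V] (H : Finset (Finset V)),
    (∀ e ∈ H, ∀ f ∈ H, e ≠ f → (e ∩ f).card ≤ 1) → (∀ e ∈ H, 2 ≤ e.card) →
    (∀ e ∈ H, e.card ≤ r) → (∀ v, (clN H v).card ≤ D) →
    ∀ U : Finset V, (∀ v, v ∉ U → ((at' H v).card : ℝ) ≤ (1 - ε) * D) →
    40 * (r : ℝ) ^ 2 * U.card ≤ ε * D →
    ∀ (C : Type) [DecidableEq C] [Nonempty C] (L : Finset V → Finset C),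
    (∀ e ∈ H, D ≤ (L e).card) → ∃ φ, Pr H L φ := by
  classical
  obtain ⟨D₀, hD₀⟩ := wlist r (by omega) (ε / 4) (by positivity) (by linarith) 4 (by norm_num)
  refine ⟨max D₀ 1, ?_⟩
  intro D hD V _ _ H hlin h2 hr hN U hU hbig C _ _ L hL
  have g1 : D₀ ≤ D := (le_max_left _ _).trans hD
  have g2 : 1 ≤ D := (le_max_right _ _).trans hD
  have hDR : (1 : ℝ) ≤ D := by exact_mod_cast g2
  have hsub : ∀ e ∈ H, ∃ t ⊆ L e, t.card = D := fun e he => exists_subset_card_eq (hL e he)
  choose! L₁ hL₁ hL₁c using hsub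
  have hbig1 : 40 * (r * (r * U.card)) ≤ D := by
    have h1 : (40 * (r * (r * U.card)) : ℝ) ≤ D := by
      have : ε * (D : ℝ) ≤ 1 * D := mul_le_mul_of_nonneg_right hε1 (by linarith)
      nlinarith
    exact_mod_cast h1
  obtain ⟨φ₁, hφ₁⟩ := meetU' (L := L₁) hlin (fun u _ => at_lt hlin h2 g2 hN u) hr
    (fun e he => (hL₁c e he).ge) hr2 hbig1
  set F := H.filter (fun e => (e ∩ U).Nonempty) with hF
  set W := H.filter (fun e => ¬ (e ∩ U).Nonempty) with hWdef
  have hWH : ∀ e ∈ W, e ∈ H := fun e he => (mem_filter.1 he).1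
  have hlist : ∀ e ∈ W, (1 - ε / 4) * D ≤ ((red F L₁ φ₁ e).card : ℝ) := by
    intro e he
    rw [hWdef, mem_filter] at he
    have h3 := red_ge' (F := F) L₁ φ₁ e
    rw [hL₁c e he.1] at h3
    have h6 : ∑ v ∈ e, (at' F v).card ≤ r * U.card := by
      calc ∑ v ∈ e, (at' F v).card ≤ ∑ _v ∈ e, U.card := by
            apply sum_le_sum
            intro v hv
            refine at_le hlin (filter_subset _ _) (fun f hf => (mem_filter.1 hf).2) ?_
            intro hvU
            exact he.2 ⟨v, mem_inter.2 ⟨hv, hvU⟩⟩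
        _ = e.card * U.card := by rw [sum_const, smul_eq_mul]
        _ ≤ r * U.card := Nat.mul_le_mul_right _ (hr e he.1)
    have h7 : D ≤ (red F L₁ φ₁ e).card + r * U.card := by omega
    have h8 : (D : ℝ) ≤ (red F L₁ φ₁ e).card + r * U.card := by exact_mod_cast h7
    have hrR : (2 : ℝ) ≤ r := by exact_mod_cast hr2
    have h9 : (0 : ℝ) ≤ r * U.card := by positivity
    nlinarith
  have hlist2 : ∀ e ∈ W, (D : ℝ) / 2 ≤ ((red F L₁ φ₁ e).card : ℝ) := by
    intro e he
    have := hlist e he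
    nlinarith
  have hlist0 : ∀ e ∈ W, (0 : ℝ) < ((red F L₁ φ₁ e).card : ℝ) := by
    intro e he
    have := hlist2 e he
    linarith
  obtain ⟨φ₂, hφ₂⟩ := hD₀ D g1 V W (fun e he => by
      have := h2 e (hWH e he)
      exact card_pos.1 (by omega)) (fun e he => hr e (hWH e he))
    (fun e he f hf => hlin e (hWH e he) f (hWH f hf)) (fun v => by
      have h3 := at_lt hlin h2 g2 hN v
      have h4 : (at' W v).card ≤ (at' H v).card := by
        apply card_le_card
        intro e he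
        rw [mem_at] at he ⊢
        exact ⟨hWH e he.1, he.2⟩
      omega) C (red F L₁ φ₁) (fun e _ => (1 + ε / 4) / ((red F L₁ φ₁ e).card : ℝ))
    (fun e he => by
      rw [← hL₁c e (hWH e he)]
      exact card_le_card sdiff_subset) (fun e he c _ => by positivity)
    (fun e he c _ => by
      rw [div_le_div_iff₀ (hlist0 e he) (by linarith)]
      have := hlist2 e he
      nlinarith) (fun v c => by
      by_cases hv : v ∈ U
      · have : at' W v = ∅ := by
          rw [eq_empty_iff_forall_notMem]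
          intro e he
          rw [mem_at, hWdef, mem_filter] at he
          exact he.1.2 ⟨v, mem_inter.2 ⟨he.2, hv⟩⟩
        rw [this, filter_empty, sum_empty]
        exact zero_le_one
      · have h3 : ∀ e ∈ (at' W v).filter (fun e => c ∈ red F L₁ φ₁ e),
            (1 + ε / 4) / ((red F L₁ φ₁ e).card : ℝ) ≤ (1 + ε / 4) / ((1 - ε / 4) * D) := by
          intro e he
          have h4 := hlist e (mem_at.1 (mem_filter.1 he).1).1
          apply div_le_div_of_nonneg_left (by linarith) _ h4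
          have : 0 < 1 - ε / 4 := by linarith
          positivity
        refine (sum_le_sum h3).trans ?_
        rw [sum_const, nsmul_eq_mul]
        have h4 : (((at' W v).filter (fun e => c ∈ red F L₁ φ₁ e)).card : ℝ) ≤ (1 - ε) * D := by
          refine le_trans ?_ (hU v hv)
          have : ((at' W v).filter (fun e => c ∈ red F L₁ φ₁ e)).card ≤ (at' H v).card := by
            apply card_le_card
            intro e he
            rw [mem_filter, mem_at] at he
            exact mem_at.2 ⟨hWH e he.1.1, he.1.2⟩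
          exact_mod_cast this
        have h5 : 0 < (1 - ε / 4) * (D : ℝ) := by
          have : 0 < 1 - ε / 4 := by linarith
          positivity
        rw [mul_div_assoc', div_le_one h5]
        have h6 : (((at' W v).filter (fun e => c ∈ red F L₁ φ₁ e)).card : ℝ) * (1 + ε / 4) ≤
            (1 - ε) * D * (1 + ε / 4) := mul_le_mul_of_nonneg_right h4 (by linarith)
        refine h6.trans ?_
        nlinarith [mul_nonneg (mul_nonneg hε0.le hε0.le) (by linarith : (0 : ℝ) ≤ D),
          mul_nonneg hε0.le (by linarith : (0 : ℝ) ≤ D)]) (fun e he => by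
      rw [sum_const, nsmul_eq_mul]
      have := (hlist0 e he).ne'
      apply le_of_eq
      field_simp)
  obtain ⟨χ, hχ, -, -⟩ := glue hφ₁ hφ₂
  refine ⟨χ, Pr_sub ?_ (fun e he => hL₁ e he) hχ⟩
  intro e he
  rw [mem_union, hF, hWdef, mem_filter, mem_filter]
  tauto

end Pool.Agent.Run7.h320
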