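import Pool.Agent.Run7.h320.Star2

/-!
# Colouring a few edges with unpopular colours first
-/

set_option autoImplicit false

namespace Pool.Agent.Run7.h320

open Finset K3h83.LK

section
variable {V C : Type} [DecidableEq V] [DecidableEq C]

theorem pre_step {H F : Finset (Finset V)} {L : Finset V → Finset C}
    {φ : Finset V → C} {u : V} {n r m J : ℕ}
    (hlin : ∀ e ∈ H, ∀ f ∈ H, e ≠ f → (e ∩ f).card ≤ 1)
    (hr : ∀ e ∈ H, e.card ≤ r) (hL : ∀ e ∈ H, n ≤ (L e).card) (hF : F ⊆ H)
    (hJ : J + (pop H L u (5 * (r * m))).card ≤ n)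
    (hx : (us F φ u \ pop H L u (5 * (r * m))).card + 2 ≤ J)
    (hFc : F.card ≤ m * (J - 1)) (ha : (at' F u).card ≤ 3 * (r * m))
    (hd : 10 * (r * m) < (at' H u).card) :
    ∃ e ∈ at' H u, e ∉ F ∧ ∃ c ∈ red F L φ e, c ∉ pop H L u (5 * (r * m)) := by
  classical
  by_contra hcon
  push Not at hcon
  obtain ⟨q, hq⟩ : ∃ q, q = r * m := ⟨_, rfl⟩
  rw [← hq] at hJ hx ha hd hcon
  set P := pop H L u (5 * q) with hP
  set E := at' H u \ F with hE
  set G := F.filter (fun f => u ∉ f) with hG
  have h1 : ∀ e ∈ E, J ≤ ((us F φ u \ P).filter (fun c => c ∈ L e)).card +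
      (G.filter (fun f => (e ∩ f).Nonempty)).card := by
    intro e he
    rw [hE, mem_sdiff] at he
    have h2 : L e \ P ⊆ (us F φ u \ P).filter (fun c => c ∈ L e) ∪
        (G.filter (fun f => (e ∩ f).Nonempty)).image φ := by
      intro c hc
      rw [mem_sdiff] at hc
      have h3 : c ∉ red F L φ e := fun h => hc.2 (hcon e he.1 he.2 c h)
      rw [mem_red] at h3
      push Not at h3
      obtain ⟨f, hf, hfe, rfl⟩ := h3 hc.1
      by_cases hfu : u ∈ f
      · exact mem_union_left _ (mem_filter.2 ⟨mem_sdiff.2
          ⟨mem_image_of_mem _ (mem_at.2 ⟨hf, hfu⟩), hc.2⟩, hc.1⟩)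
      · exact mem_union_right _ (mem_image_of_mem _ (mem_filter.2
          ⟨mem_filter.2 ⟨hf, hfu⟩, by rwa [inter_comm]⟩))
    have h3 := (card_le_card h2).trans (card_union_le _ _)
    have h4 := card_image_le (s := G.filter (fun f => (e ∩ f).Nonempty)) (f := φ)
    have h5 := le_card_sdiff P (L e)
    have h6 := hL e (mem_at.1 he.1).1
    omega
  have h2 : E.card * J ≤ ∑ e ∈ E, ((us F φ u \ P).filter (fun c => c ∈ L e)).card +
      ∑ e ∈ E, (G.filter (fun f => (e ∩ f).Nonempty)).card := by
    rw [← sum_add_distrib, ← smul_eq_mul, ← sum_const]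
    exact sum_le_sum h1
  have h3 : ∑ e ∈ E, ((us F φ u \ P).filter (fun c => c ∈ L e)).card ≤
      (us F φ u \ P).card * (5 * q) := by
    simp_rw [card_filter]
    rw [sum_comm, ← smul_eq_mul, ← sum_const]
    apply sum_le_sum
    intro c hc
    rw [← card_filter]
    have h4 : c ∉ P := (mem_sdiff.1 hc).2
    rw [hP, mem_pop, not_lt] at h4
    refine le_trans (card_le_card ?_) h4
    intro e he
    rw [mem_filter] at he
    exact mem_filter.2 ⟨(mem_sdiff.1 (hE ▸ he.1)).1, he.2⟩
  have h4 : ∑ e ∈ E, (G.filter (fun f => (e ∩ f).Nonempty)).card ≤ F.card * r := by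
    simp_rw [card_filter]
    rw [sum_comm]
    have h5 : ∀ f ∈ G, (∑ e ∈ E, if (e ∩ f).Nonempty then 1 else 0) ≤ r := by
      intro f hf
      rw [← card_filter]
      have hf' := mem_filter.1 hf
      have h6 := two hlin (Finset.Subset.refl H) hf'.2
      refine le_trans (card_le_card ?_) (h6.trans (hr f (hF hf'.1)))
      intro e he
      rw [mem_filter] at he
      exact mem_filter.2 ⟨(mem_sdiff.1 (hE ▸ he.1)).1, he.2⟩
    calc (∑ f ∈ G, ∑ e ∈ E, if (e ∩ f).Nonempty then 1 else 0) ≤ ∑ f ∈ G, r := sum_le_sum h5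
      _ = G.card * r := by rw [sum_const, smul_eq_mul]
      _ ≤ F.card * r := Nat.mul_le_mul_right _ (card_le_card (filter_subset _ _))
  have h5 : E.card + (at' F u).card = (at' H u).card := by
    have h1 : at' F u ⊆ at' H u := by
      intro e he
      rw [mem_at] at he ⊢
      exact ⟨hF he.1, he.2⟩
    have h2 : E = at' H u \ at' F u := by
      rw [hE]
      ext e
      simp only [mem_sdiff, mem_at]
      tauto
    rw [h2, card_sdiff_of_subset h1]
    have := card_le_card h1
    omega
  have h6 : F.card * r ≤ (J - 1) * q := by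
    calc F.card * r ≤ m * (J - 1) * r := Nat.mul_le_mul_right _ hFc
      _ = (J - 1) * q := by rw [hq]; ring
  obtain ⟨j, rfl⟩ : ∃ j, J = j + 2 := ⟨J - 2, by omega⟩
  have h7 : (us F φ u \ P).card * (5 * q) ≤ j * (5 * q) := Nat.mul_le_mul_right _ (by omega)
  have h8 : (j + 2) * E.card ≤ (j + 2) * (6 * q) := by
    calc (j + 2) * E.card = E.card * (j + 2) := mul_comm _ _
      _ ≤ j * (5 * q) + (j + 2 - 1) * q := by omega
      _ ≤ (j + 2) * (6 * q) := by
        have : j + 2 - 1 = j + 1 := by omega
        rw [this]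
        nlinarith
  have h9 : E.card ≤ 6 * q := Nat.le_of_mul_le_mul_left h8 (by omega)
  omega

theorem us_mono {F F' : Finset (Finset V)} {φ φ' : Finset V → C} (hFF : F ⊆ F')
    (h : ∀ f ∈ F, φ' f = φ f) (v : V) : us F φ v ⊆ us F' φ' v := by
  intro c hc
  unfold us at hc ⊢
  rw [mem_image] at hc ⊢
  obtain ⟨f, hf, rfl⟩ := hc
  rw [mem_at] at hf
  exact ⟨f, mem_at.2 ⟨hFF hf.1, hf.2⟩, h f hf.1⟩

theorem Pr_insert {F : Finset (Finset V)} {L : Finset V → Finset C} {φ : Finset V → C}
    (hφ : Pr F L φ) {e : Finset V} (he : e ∉ F) {c : C} (hc : c ∈ red F L φ e) :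
    Pr (insert e F) L (Function.update φ e c) := by
  rw [mem_red] at hc
  constructor
  · intro f hf
    rw [mem_insert] at hf
    rcases hf with rfl | hf
    · rw [Function.update_self]
      exact hc.1
    · rw [Function.update_of_ne (by rintro rfl; exact he hf)]
      exact hφ.1 f hf
  · intro f hf g hg hfg hne
    rw [mem_insert] at hf hg
    rcases hf with rfl | hf
    · rcases hg with rfl | hg
      · exact absurd rfl hfg
      · rw [Function.update_self, Function.update_of_ne (by rintro rfl; exact he hg)]
        exact (hc.2 g hg (by rwa [inter_comm])).symm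
    · rcases hg with rfl | hg
      · rw [Function.update_self, Function.update_of_ne (by rintro rfl; exact he hf)]
        exact hc.2 f hf hne
      · rw [Function.update_of_ne (by rintro rfl; exact he hf),
          Function.update_of_ne (by rintro rfl; exact he hg)]
        exact hφ.2 f hf g hg hfg hne

theorem pre_inner {H : Finset (Finset V)} {L : Finset V → Finset C} {u : V} {n r m J : ℕ}
    (hlin : ∀ e ∈ H, ∀ f ∈ H, e ≠ f → (e ∩ f).card ≤ 1)
    (hr : ∀ e ∈ H, e.card ≤ r) (hL : ∀ e ∈ H, n ≤ (L e).card)
    (hJ : J + (pop H L u (5 * (r * m))).card ≤ n) (hd : 10 * (r * m) < (at' H u).card) :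
    ∀ (k : ℕ) (F : Finset (Finset V)) (φ : Finset V → C), F ⊆ H → Pr F L φ →
      F.card + k ≤ m * (J - 1) → (at' F u).card + k ≤ 3 * (r * m) →
      J ≤ (us F φ u \ pop H L u (5 * (r * m))).card + 1 + k →
      ∃ F' φ', F ⊆ F' ∧ F' ⊆ H ∧ Pr F' L φ' ∧ (∀ f ∈ F, φ' f = φ f) ∧
        (∀ f ∈ F', f ∉ F → u ∈ f) ∧ F'.card ≤ F.card + k ∧
        J ≤ (us F' φ' u \ pop H L u (5 * (r * m))).card + 1 := by
  intro k
  induction k with
  | zero =>
    intro F φ hF hφ _ _ h
    exact ⟨F, φ, Finset.Subset.refl _, hF, hφ, fun _ _ => rfl, fun f hf hf' => absurd hf hf',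
      le_rfl, h⟩
  | succ k ih =>
    intro F φ hF hφ h1 h2 h3
    by_cases h4 : J ≤ (us F φ u \ pop H L u (5 * (r * m))).card + 1
    · exact ⟨F, φ, Finset.Subset.refl _, hF, hφ, fun _ _ => rfl, fun f hf hf' => absurd hf hf',
        by omega, h4⟩
    · obtain ⟨e, he, heF, c, hc, hcP⟩ := pre_step hlin hr hL hF (φ := φ) hJ (by omega) (by omega)
        (by omega) hd
      have he' := mem_at.1 he
      have hat : at' (insert e F) u = insert e (at' F u) := by
        unfold at'
        rw [filter_insert, if_pos he'.2]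
      have heat : e ∉ at' F u := fun h => heF (mem_at.1 h).1
      have hus : us (insert e F) (Function.update φ e c) u = insert c (us F φ u) := by
        unfold us
        rw [hat, image_insert, Function.update_self]
        congr 1
        apply image_congr
        intro f hf
        rw [mem_coe] at hf
        exact Function.update_of_ne (by rintro rfl; exact heat hf) _ _
      have hcu : c ∉ us F φ u := by
        intro h
        unfold us at h
        rw [mem_image] at h
        obtain ⟨f, hf, hfc⟩ := h
        have hf' := mem_at.1 hf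
        exact (mem_red.1 hc).2 f hf'.1 ⟨u, mem_inter.2 ⟨hf'.2, he'.2⟩⟩ hfc
      obtain ⟨F', φ', a1, a2, a3, a4, a5, a6, a7⟩ := ih (insert e F) (Function.update φ e c)
        (by
          intro f hf
          rw [mem_insert] at hf
          rcases hf with rfl | hf
          · exact he'.1
          · exact hF hf) (Pr_insert hφ heF hc)
        (by rw [card_insert_of_notMem heF]; omega)
        (by rw [hat, card_insert_of_notMem heat]; omega)
        (by
          rw [hus, insert_sdiff_of_notMem _ hcP, card_insert_of_notMem (fun h => hcu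
            (mem_sdiff.1 h).1)]
          omega)
      refine ⟨F', φ', (subset_insert _ _).trans a1, a2, a3, ?_, ?_, ?_, a7⟩
      · intro f hf
        rw [a4 f (mem_insert_of_mem hf), Function.update_of_ne (by rintro rfl; exact heF hf)]
      · intro f hf hfF
        by_cases hfe : f = e
        · rw [hfe]
          exact he'.2
        · exact a5 f hf (by rw [mem_insert]; tauto)
      · rw [card_insert_of_notMem heF] at a6
        omega

/-- the vertices at which some edges are coloured first -/
def U1 (H : Finset (Finset V)) (L : Finset V → Finset C) (U : Finset V) (n r m : ℕ) : Finset V :=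
  U.filter (fun u => 10 * (r * m) < (at' H u).card ∧ 2 + (pop H L u (5 * (r * m))).card ≤ n ∧
    n ≤ 2 * (r * m) + (pop H L u (5 * (r * m))).card)

theorem pre {H : Finset (Finset V)} {L : Finset V → Finset C} {U : Finset V} {n r m : ℕ}
    [Nonempty C] (hlin : ∀ e ∈ H, ∀ f ∈ H, e ≠ f → (e ∩ f).card ≤ 1)
    (hr : ∀ e ∈ H, e.card ≤ r) (hL : ∀ e ∈ H, n ≤ (L e).card) (hU : U.card ≤ m) (hr2 : 2 ≤ r) :
    ∀ s ⊆ U1 H L U n r m, ∃ F φ, F ⊆ H ∧ Pr F L φ ∧ (∀ f ∈ F, (f ∩ s).Nonempty) ∧
      F.card ≤ ∑ u ∈ s, (n - (pop H L u (5 * (r * m))).card - 1) ∧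
      (∀ u ∈ s, n ≤ (pop H L u (5 * (r * m))).card +
        (us F φ u \ pop H L u (5 * (r * m))).card + 1) ∧
      ∀ u ∈ U, ((at' F u).filter (fun f => f ∩ U = {u})).card ≤ 2 * (r * m) := by
  classical
  intro s
  refine Finset.induction_on_max_value (fun u => n - (pop H L u (5 * (r * m))).card) s ?_ ?_
  · intro _
    refine ⟨∅, fun _ => Classical.arbitrary C, empty_subset _, ⟨by simp, by simp⟩, by simp,
      by simp, by simp, ?_⟩
    intro u _
    simp [at']
  · intro a s has hmax ih hs
    have hsub : s ⊆ U1 H L U n r m := (subset_insert _ _).trans hs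
    obtain ⟨F, φ, hF, hφ, h1, h2, h3, h4⟩ := ih hsub
    have haU := mem_filter.1 (hs (mem_insert_self a s))
    obtain ⟨haU, had, haJ, haJ'⟩ := haU
    obtain ⟨J, hJ⟩ : ∃ J, J = n - (pop H L a (5 * (r * m))).card := ⟨_, rfl⟩
    have hU1 : U1 H L U n r m ⊆ U := filter_subset _ _
    have hsc : s.card + 1 ≤ m := by
      rw [← card_insert_of_notMem has]
      exact (card_le_card (hs.trans hU1)).trans hU
    have hqm : 2 * m ≤ r * m := Nat.mul_le_mul_right _ hr2
    have h5 : F.card ≤ s.card * (J - 1) := by
      have h6 : ∑ u ∈ s, (n - (pop H L u (5 * (r * m))).card - 1) ≤ ∑ _u ∈ s, (J - 1) := by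
        apply sum_le_sum
        intro u hu
        have := hmax u hu
        omega
      rw [sum_const, smul_eq_mul] at h6
      exact h2.trans h6
    have h6 : (s.card + 1) * (J - 1) ≤ m * (J - 1) := Nat.mul_le_mul_right _ hsc
    have h7 : (s.card + 1) * (J - 1) = s.card * (J - 1) + (J - 1) := by ring
    have h8 := at_le hlin hF h1 has
    obtain ⟨F', φ', a1, a2, a3, a4, a5, a6, a7⟩ := pre_inner hlin hr hL (J := J) (u := a)
      (by omega) had (J - 1) F φ hF hφ (by omega) (by omega) (by omega)
    refine ⟨F', φ', a2, a3, ?_, ?_, ?_, ?_⟩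
    · intro f hf
      by_cases hfF : f ∈ F
      · obtain ⟨x, hx⟩ := h1 f hfF
        rw [mem_inter] at hx
        exact ⟨x, mem_inter.2 ⟨hx.1, mem_insert_of_mem hx.2⟩⟩
      · exact ⟨a, mem_inter.2 ⟨a5 f hf hfF, mem_insert_self _ _⟩⟩
    · rw [sum_insert has]
      omega
    · intro u hu
      rw [mem_insert] at hu
      rcases hu with rfl | hu
      · omega
      · have h9 := h3 u hu
        have h10 := card_le_card (sdiff_subset_sdiff (us_mono a1 a4 u)
          (Finset.Subset.refl (pop H L u (5 * (r * m)))))
        omega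
    · intro u hu
      by_cases hua : u = a
      · subst hua
        have h9 : (at' F' u).filter (fun f => f ∩ U = {u}) ⊆ F' \ F := by
          intro f hf
          rw [mem_filter, mem_at] at hf
          rw [mem_sdiff]
          refine ⟨hf.1.1, fun hfF => ?_⟩
          obtain ⟨x, hx⟩ := h1 f hfF
          rw [mem_inter] at hx
          have hxU : x ∈ f ∩ U := mem_inter.2 ⟨hx.1, hU1 (hsub hx.2)⟩
          rw [hf.2, mem_singleton] at hxU
          subst hxU
          exact has hx.2
        have h10 := card_le_card h9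
        rw [card_sdiff_of_subset a1] at h10
        omega
      · refine le_trans (card_le_card ?_) (h4 u hu)
        intro f hf
        rw [mem_filter, mem_at] at hf
        rw [mem_filter, mem_at]
        refine ⟨⟨?_, hf.1.2⟩, hf.2⟩
        by_contra hfF
        have haf : a ∈ f ∩ U := mem_inter.2 ⟨a5 f hf.1.1 hfF, haU⟩
        rw [hf.2, mem_singleton] at haf
        exact hua haf.symm

/-- all edges that meet `U` can be coloured -/
theorem meetU {H : Finset (Finset V)} {L : Finset V → Finset C} {U : Finset V} {n r m : ℕ}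
    [Nonempty C] (hlin : ∀ e ∈ H, ∀ f ∈ H, e ≠ f → (e ∩ f).card ≤ 1)
    (hn : ∀ u ∈ U, (at' H u).card + 1 ≤ n)
    (hr : ∀ e ∈ H, e.card ≤ r) (hL : ∀ e ∈ H, n ≤ (L e).card) (hU : U.card ≤ m) (hr2 : 2 ≤ r)
    (hm : 1 ≤ m) (hbig : 40 * (r * (r * m)) ≤ n) :
    ∃ φ, Pr (H.filter (fun e => (e ∩ U).Nonempty)) L φ := by
  classical
  obtain ⟨F₀, φ₀, hF₀, hφ₀, h1, -, h3, h4⟩ := pre hlin hr hL hU hr2 (U1 H L U n r m)
    (Finset.Subset.refl _)
  have hU1 : U1 H L U n r m ⊆ U := filter_subset _ _
  have hqm : 2 * m ≤ r * m := Nat.mul_le_mul_right _ hr2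
  have main : ∀ s ⊆ U, ∃ φ, Pr (F₀ ∪ H.filter (fun e => (e ∩ s).Nonempty)) L φ ∧
      ∀ f ∈ F₀, φ f = φ₀ f := by
    intro s
    refine Finset.induction_on s ?_ ?_
    · intro _
      refine ⟨φ₀, ?_, fun _ _ => rfl⟩
      have : H.filter (fun e => (e ∩ ∅).Nonempty) = ∅ := by
        rw [filter_eq_empty_iff]
        intro e _
        simp
      rw [this, union_empty]
      exact hφ₀
    · intro u s hus ih hs
      have huU : u ∈ U := hs (mem_insert_self _ _)
      have hsU : s ⊆ U := (subset_insert _ _).trans hs
      obtain ⟨φ, hφ, hφe⟩ := ih hsU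
      set F := F₀ ∪ H.filter (fun e => (e ∩ s).Nonempty) with hFdef
      have hF : F ⊆ H := union_subset hF₀ (filter_subset _ _)
      have hFU : ∀ f ∈ F, (f ∩ U).Nonempty := by
        intro f hf
        rw [hFdef, mem_union, mem_filter] at hf
        rcases hf with hf | hf
        · obtain ⟨x, hx⟩ := h1 f hf
          rw [mem_inter] at hx
          exact ⟨x, mem_inter.2 ⟨hx.1, hU1 hx.2⟩⟩
        · obtain ⟨x, hx⟩ := hf.2
          rw [mem_inter] at hx
          exact ⟨x, mem_inter.2 ⟨hx.1, hsU hx.2⟩⟩
      -- the edges at a vertex outside `s`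
      have hsplit : ∀ v, v ∉ s → ∀ f ∈ at' F v, (f ∩ U.erase v).Nonempty ∨
          (f ∈ at' F₀ v ∧ f ∩ U = {v} ∧ v ∈ U1 H L U n r m) := by
        intro v hv f hf
        rw [mem_at] at hf
        by_cases h5 : (f ∩ U.erase v).Nonempty
        · exact Or.inl h5
        · right
          have h6 : ∀ x ∈ f, x ∈ U → x = v := by
            intro x hx hxU
            by_contra hxv
            exact h5 ⟨x, mem_inter.2 ⟨hx, mem_erase.2 ⟨hxv, hxU⟩⟩⟩
          have hf1 := hf.1
          rw [hFdef, mem_union, mem_filter] at hf1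
          rcases hf1 with hf1 | hf1
          · obtain ⟨x, hx⟩ := h1 f hf1
            rw [mem_inter] at hx
            have hxv := h6 x hx.1 (hU1 hx.2)
            subst hxv
            refine ⟨mem_at.2 ⟨hf1, hf.2⟩, ?_, hx.2⟩
            ext y
            rw [mem_inter, mem_singleton]
            constructor
            · rintro ⟨hy1, hy2⟩
              exact h6 y hy1 hy2
            · rintro rfl
              exact ⟨hx.1, hU1 hx.2⟩
          · obtain ⟨x, hx⟩ := hf1.2
            rw [mem_inter] at hx
            have hxv := h6 x hx.1 (hsU hx.2)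
            subst hxv
            exact absurd hx.2 hv
      have hbound : ∀ v, v ∉ s → (at' F v).card ≤ 3 * (r * m) := by
        intro v hv
        have h5 : at' F v ⊆ (at' F v).filter (fun f => (f ∩ U.erase v).Nonempty) ∪
            (at' F₀ v).filter (fun f => f ∩ U = {v} ∧ v ∈ U) := by
          intro f hf
          rw [mem_union, mem_filter, mem_filter]
          rcases hsplit v hv f hf with h | h
          · exact Or.inl ⟨hf, h⟩
          · exact Or.inr ⟨h.1, h.2.1, hU1 h.2.2⟩
        have h6 := (card_le_card h5).trans (card_union_le _ _)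
        have h7 := two hlin hF (v := v) (X := U.erase v) (by simp)
        have h8 := card_le_card (erase_subset v U)
        have h9 : ((at' F₀ v).filter (fun f => f ∩ U = {v} ∧ v ∈ U)).card ≤ 2 * (r * m) := by
          by_cases hvU : v ∈ U
          · refine le_trans (card_le_card ?_) (h4 v hvU)
            intro f hf
            rw [mem_filter] at hf ⊢
            exact ⟨hf.1, hf.2.1⟩
          · have : (at' F₀ v).filter (fun f => f ∩ U = {v} ∧ v ∈ U) = ∅ := by
              rw [filter_eq_empty_iff]
              intro f _ h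
              exact hvU h.2
            rw [this, card_empty]
            exact Nat.zero_le _
        omega
      obtain ⟨ψ, hψ⟩ := star hlin (hn u huU) hr hL hF hφ hFU hU (by
          intro v hvu hv
          obtain ⟨e, he, heF, hue, hve⟩ := hv
          apply hbound
          intro hvs
          exact heF (mem_union_right _ (mem_filter.2 ⟨he, v, mem_inter.2 ⟨hve, hvs⟩⟩)))
        (hbound u hus) hbig hm hr2 (by
          by_cases c1 : (at' H u).card ≤ 10 * (r * m)
          · exact Or.inl c1
          · right
            by_cases c2 : 2 + (pop H L u (5 * (r * m))).card ≤ n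
            · by_cases c3 : n ≤ 2 * (r * m) + (pop H L u (5 * (r * m))).card
              · left
                have huU1 : u ∈ U1 H L U n r m := mem_filter.2 ⟨huU, by omega, c2, c3⟩
                have h5 := h3 u huU1
                have h6 := card_le_card (sdiff_subset_sdiff (us_mono (F := F₀) (F' := F)
                  subset_union_left hφe u) (Finset.Subset.refl (pop H L u (5 * (r * m)))))
                omega
              · right
                refine ⟨by omega, ?_⟩
                have h5 : at' F u ⊆ (at' F u).filter (fun f => (f ∩ U.erase u).Nonempty) := by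
                  intro f hf
                  rw [mem_filter]
                  refine ⟨hf, ?_⟩
                  rcases hsplit u hus f hf with h | h
                  · exact h
                  · have := (mem_filter.1 h.2.2).2.2.2
                    omega
                have h6 := card_le_card h5
                have h7 := two hlin hF (v := u) (X := U.erase u) (by simp)
                have h8 := card_le_card (erase_subset u U)
                omega
            · left
              omega)
      obtain ⟨χ, hχ, hχ1, -⟩ := glue hφ hψ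
      refine ⟨χ, ?_, ?_⟩
      · have h5 : F₀ ∪ H.filter (fun e => (e ∩ insert u s).Nonempty) ⊆ F ∪ (at' H u \ F) := by
          intro e he
          rw [mem_union, mem_filter] at he
          rcases he with he | ⟨he, x, hx⟩
          · exact mem_union_left _ (mem_union_left _ he)
          · rw [mem_inter, mem_insert] at hx
            by_cases heF : e ∈ F
            · exact mem_union_left _ heF
            · rcases hx.2 with rfl | hxs
              · exact mem_union_right _ (mem_sdiff.2 ⟨mem_at.2 ⟨he, hx.1⟩, heF⟩)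
              · exact absurd (mem_union_right _ (mem_filter.2 ⟨he, x,
                  mem_inter.2 ⟨hx.1, hxs⟩⟩)) heF
        exact ⟨fun e he => hχ.1 e (h5 he), fun e he f hf => hχ.2 e (h5 he) f (h5 hf)⟩
      · intro f hf
        rw [hχ1 f (mem_union_left _ hf)]
        exact hφe f hf
  obtain ⟨φ, hφ, -⟩ := main U (Finset.Subset.refl _)
  exact ⟨φ, fun e he => hφ.1 e (mem_union_right _ he),
    fun e he f hf => hφ.2 e (mem_union_right _ he) f (mem_union_right _ hf)⟩

end

end Pool.Agent.Run7.h320
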