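import Pool.Agent.Run7.h320.Base

/-!
# Colouring the edges that meet a small set of vertices
-/

set_option autoImplicit false

namespace Pool.Agent.Run7.h320

open Finset K3h83.LK

section
variable {V C : Type} [DecidableEq V] [DecidableEq C]

/-- the edges of `G` at `v` -/
def at' (G : Finset (Finset V)) (v : V) : Finset (Finset V) := G.filter (fun e => v ∈ e)

/-- the colours used at `v` -/
def us (F : Finset (Finset V)) (φ : Finset V → C) (v : V) : Finset C := (at' F v).image φ

/-- the number of edges at `u` the list of which contains `c` -/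
def dc (H : Finset (Finset V)) (L : Finset V → Finset C) (u : V) (c : C) : ℕ :=
  ((at' H u).filter (fun e => c ∈ L e)).card

/-- the colours which are in the lists of more than `k` edges at `u` -/
def pop (H : Finset (Finset V)) (L : Finset V → Finset C) (u : V) (k : ℕ) : Finset C :=
  ((at' H u).biUnion L).filter (fun c => k < dc H L u c)

omit [DecidableEq C] in
theorem mem_at {G : Finset (Finset V)} {v : V} {e : Finset V} : e ∈ at' G v ↔ e ∈ G ∧ v ∈ e := by
  unfold at'
  rw [mem_filter]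

theorem mem_pop {H : Finset (Finset V)} {L : Finset V → Finset C} {u : V} {k : ℕ} {c : C} :
    c ∈ pop H L u k ↔ k < dc H L u c := by
  unfold pop
  rw [mem_filter, mem_biUnion]
  constructor
  · exact fun h => h.2
  · intro h
    refine ⟨?_, h⟩
    have h1 : 0 < ((at' H u).filter (fun e => c ∈ L e)).card := lt_of_le_of_lt (Nat.zero_le _) h
    obtain ⟨e, he⟩ := card_pos.1 h1
    rw [mem_filter] at he
    exact ⟨e, he.1, he.2⟩

/-- Hall's theorem -/
theorem hall {α : Type} (E : Finset α) (t : α → Finset C)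
    (h : ∀ S ⊆ E, S.card ≤ (S.biUnion t).card) [Nonempty C] :
    ∃ ψ : α → C, (∀ e ∈ E, ψ e ∈ t e) ∧ ∀ e ∈ E, ∀ f ∈ E, ψ e = ψ f → e = f := by
  classical
  have h1 : ∃ f : {x // x ∈ E} → C, Function.Injective f ∧ ∀ x, f x ∈ t x.1 := by
    apply (Finset.all_card_le_biUnion_card_iff_exists_injective (fun x : {x // x ∈ E} => t x.1)).1
    intro S
    have h2 := h (S.map (Function.Embedding.subtype _)) (by
      intro x hx
      rw [Finset.mem_map] at hx
      obtain ⟨a, _, rfl⟩ := hx
      exact a.2)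
    rw [Finset.card_map] at h2
    refine le_trans h2 (Finset.card_le_card ?_)
    intro y hy
    rw [Finset.mem_biUnion] at hy
    obtain ⟨x, hx, hxy⟩ := hy
    rw [Finset.mem_map] at hx
    obtain ⟨a, ha, rfl⟩ := hx
    exact Finset.mem_biUnion.2 ⟨a, ha, hxy⟩
  obtain ⟨f, hf, hft⟩ := h1
  refine ⟨fun e => if he : e ∈ E then f ⟨e, he⟩ else Classical.arbitrary C, ?_, ?_⟩
  · intro e he
    simp only [dif_pos he]
    exact hft ⟨e, he⟩
  · intro e he e' he' heq
    simp only [dif_pos he, dif_pos he'] at heq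
    exact congrArg Subtype.val (hf heq)

omit [DecidableEq C] in
theorem two {H : Finset (Finset V)} (hlin : ∀ e ∈ H, ∀ f ∈ H, e ≠ f → (e ∩ f).card ≤ 1)
    {G : Finset (Finset V)} (hG : G ⊆ H) {v : V} {X : Finset V} (hv : v ∉ X) :
    ((at' G v).filter (fun e => (e ∩ X).Nonempty)).card ≤ X.card := by
  have h1 : (at' G v).filter (fun e => (e ∩ X).Nonempty) ⊆
      X.biUnion (fun x => (at' G v).filter (fun e => x ∈ e)) := by
    intro e he
    rw [mem_filter] at he
    obtain ⟨x, hx⟩ := he.2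
    rw [mem_inter] at hx
    exact mem_biUnion.2 ⟨x, hx.2, mem_filter.2 ⟨he.1, hx.1⟩⟩
  refine (card_le_card h1).trans ((card_biUnion_le_card_mul _ _ 1 ?_).trans (by omega))
  intro x hx
  rw [card_le_one]
  intro e he f hf
  rw [mem_filter, mem_at] at he hf
  by_contra hne
  have h2 := hlin e (hG he.1.1) f (hG hf.1.1) hne
  have h3 : ({v, x} : Finset V) ⊆ e ∩ f := by
    intro y hy
    rw [mem_insert, mem_singleton] at hy
    rw [mem_inter]
    rcases hy with rfl | rfl
    · exact ⟨he.1.2, hf.1.2⟩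
    · exact ⟨he.2, hf.2⟩
  have h4 := card_le_card h3
  rw [card_pair (by rintro rfl; exact hv hx)] at h4
  omega

/-- all edges of `F` at `v` contain a vertex of `U`, and `v` is not in `U` -/
theorem at_le {H : Finset (Finset V)} (hlin : ∀ e ∈ H, ∀ f ∈ H, e ≠ f → (e ∩ f).card ≤ 1)
    {F : Finset (Finset V)} (hF : F ⊆ H) {U : Finset V} (hFU : ∀ f ∈ F, (f ∩ U).Nonempty) {v : V}
    (hv : v ∉ U) : (at' F v).card ≤ U.card := by
  refine le_trans (card_le_card ?_) (two hlin hF hv)
  intro f hf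
  rw [mem_filter]
  exact ⟨hf, hFU f (mem_at.1 hf).1⟩

theorem card_us {F : Finset (Finset V)} {L : Finset V → Finset C} {φ : Finset V → C}
    (hφ : Pr F L φ) (u : V) : (us F φ u).card = (at' F u).card := by
  unfold us
  apply card_image_of_injOn
  intro e he f hf heq
  rw [mem_coe, mem_at] at he hf
  by_contra hne
  exact hφ.2 e he.1 f hf.1 hne ⟨u, mem_inter.2 ⟨he.2, hf.2⟩⟩ heq

/-- the size of a colour class -/
theorem cls_le {F : Finset (Finset V)} {L : Finset V → Finset C} {φ : Finset V → C}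
    (hφ : Pr F L φ) {U : Finset V} (hFU : ∀ f ∈ F, (f ∩ U).Nonempty) (c : C) :
    (F.filter (fun f => φ f = c)).card ≤ U.card := by
  classical
  rcases (F.filter (fun f => φ f = c)).eq_empty_or_nonempty with h0 | ⟨f₀, hf₀⟩
  · rw [h0, card_empty]
    exact Nat.zero_le _
  obtain ⟨v₀, -⟩ := hFU f₀ (mem_filter.1 hf₀).1
  have hVne : Nonempty V := ⟨v₀⟩
  choose! g hg using hFU
  refine card_le_card_of_injOn g ?_ ?_
  · intro f hf
    rw [mem_coe, mem_filter] at hf
    exact (mem_inter.1 (hg f hf.1)).2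
  · intro e he f hf heq
    rw [mem_coe, mem_filter] at he hf
    by_contra hne
    refine hφ.2 e he.1 f hf.1 hne ⟨g e, mem_inter.2 ⟨(mem_inter.1 (hg e he.1)).1, ?_⟩⟩
      (he.2.trans hf.2.symm)
    rw [heq]
    exact (mem_inter.1 (hg f hf.1)).1

/-- the edges at `u` that meet a colour class which does not cover `u` -/
theorem blocked {H : Finset (Finset V)} (hlin : ∀ e ∈ H, ∀ f ∈ H, e ≠ f → (e ∩ f).card ≤ 1)
    {r : ℕ} (hr : ∀ e ∈ H, e.card ≤ r) {F : Finset (Finset V)} (hF : F ⊆ H) {u : V}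
    (G : Finset (Finset V)) (hG : G ⊆ F) (hGu : ∀ f ∈ G, u ∉ f) :
    ((at' H u).filter (fun e => ∃ f ∈ G, (e ∩ f).Nonempty)).card ≤ G.card * r := by
  have h1 : (at' H u).filter (fun e => ∃ f ∈ G, (e ∩ f).Nonempty) ⊆
      G.biUnion (fun f => (at' H u).filter (fun e => (e ∩ f).Nonempty)) := by
    intro e he
    rw [mem_filter] at he
    obtain ⟨f, hf, hef⟩ := he.2
    exact mem_biUnion.2 ⟨f, hf, mem_filter.2 ⟨he.1, hef⟩⟩
  refine (card_le_card h1).trans (card_biUnion_le_card_mul _ _ r ?_)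
  intro f hf
  exact (two hlin (Finset.Subset.refl H) (hGu f hf)).trans (hr f (hF (hG hf)))

theorem mem_red {F : Finset (Finset V)} {L : Finset V → Finset C} {φ : Finset V → C}
    {e : Finset V} {c : C} :
    c ∈ red F L φ e ↔ c ∈ L e ∧ ∀ f ∈ F, (f ∩ e).Nonempty → φ f ≠ c := by
  unfold red
  rw [mem_sdiff, mem_image]
  constructor
  · rintro ⟨h1, h2⟩
    refine ⟨h1, fun f hf hfe heq => h2 ⟨f, mem_filter.2 ⟨hf, hfe⟩, heq⟩⟩
  · rintro ⟨h1, h2⟩
    refine ⟨h1, ?_⟩
    rintro ⟨f, hf, heq⟩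
    rw [mem_filter] at hf
    exact h2 f hf.1 hf.2 heq

/-- the loss outside `P` -/
theorem red_ge {F : Finset (Finset V)} (L : Finset V → Finset C) (φ : Finset V → C)
    (e : Finset V) (u : V) (hu : u ∈ e) (P : Finset C) :
    (L e \ P).card ≤ (red F L φ e \ P).card + (us F φ u \ P).card +
      ∑ v ∈ e.erase u, (at' F v).card := by
  have h1 : L e \ P ⊆ (red F L φ e \ P) ∪ (us F φ u \ P) ∪
      (e.erase u).biUnion (fun v => us F φ v) := by
    intro c hc
    rw [mem_sdiff] at hc
    by_cases h : c ∈ red F L φ e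
    · exact mem_union_left _ (mem_union_left _ (mem_sdiff.2 ⟨h, hc.2⟩))
    · rw [mem_red] at h
      push Not at h
      obtain ⟨f, hf, ⟨v, hv⟩, rfl⟩ := h hc.1
      rw [mem_inter] at hv
      have h2 : φ f ∈ us F φ v := mem_image_of_mem _ (mem_at.2 ⟨hf, hv.1⟩)
      by_cases hvu : v = u
      · subst hvu
        exact mem_union_left _ (mem_union_right _ (mem_sdiff.2 ⟨h2, hc.2⟩))
      · exact mem_union_right _ (mem_biUnion.2 ⟨v, mem_erase.2 ⟨hvu, hv.2⟩, h2⟩)
  have h2 : ((e.erase u).biUnion (fun v => us F φ v)).card ≤ ∑ v ∈ e.erase u, (at' F v).card :=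
    card_biUnion_le.trans (sum_le_sum fun v _ => card_image_le)
  have h3 := (card_le_card h1).trans (card_union_le _ _)
  have h4 := card_union_le (red F L φ e \ P) (us F φ u \ P)
  omega

end

end Pool.Agent.Run7.h320
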