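import Pool.Agent.Run7.h320.Star

/-!
# The step in which the star of a vertex is coloured
-/

set_option autoImplicit false

namespace Pool.Agent.Run7.h320

open Finset K3h83.LK

section
variable {V C : Type} [DecidableEq V] [DecidableEq C]

/-- colouring the star of `u` -/
theorem star [Nonempty C] {H F : Finset (Finset V)} {L : Finset V → Finset C} {φ : Finset V → C}
    {U : Finset V} {u : V} {n r m : ℕ}
    (hlin : ∀ e ∈ H, ∀ f ∈ H, e ≠ f → (e ∩ f).card ≤ 1) (hn : (at' H u).card + 1 ≤ n)
    (hr : ∀ e ∈ H, e.card ≤ r) (hL : ∀ e ∈ H, n ≤ (L e).card) (hF : F ⊆ H) (hφ : Pr F L φ)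
    (hFU : ∀ f ∈ F, (f ∩ U).Nonempty) (hU : U.card ≤ m)
    (hb : ∀ v, v ≠ u → (∃ e ∈ H, e ∉ F ∧ u ∈ e ∧ v ∈ e) → (at' F v).card ≤ 3 * (r * m))
    (ha : (at' F u).card ≤ 3 * (r * m))
    (hbig : 40 * (r * (r * m)) ≤ n) (hm : 1 ≤ m) (hr2 : 2 ≤ r)
    (hcase : (at' H u).card ≤ 10 * (r * m) ∨
      n ≤ (pop H L u (5 * (r * m))).card + (us F φ u \ pop H L u (5 * (r * m))).card + 1 ∨
      ((pop H L u (5 * (r * m))).card + 2 * (r * m) < n ∧ (at' F u).card ≤ m)) :
    ∃ ψ, Pr (at' H u \ F) (red F L φ) ψ := by
  classical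
  set P := pop H L u (5 * (r * m)) with hP
  set E := at' H u \ F with hE
  obtain ⟨q, hq⟩ : ∃ q, q = r * m := ⟨_, rfl⟩
  obtain ⟨Q, hQ⟩ : ∃ Q, Q = r * (r * m) := ⟨_, rfl⟩
  rw [← hq] at hb ha hcase hP
  rw [← hQ] at hbig
  have hqm : 2 * m ≤ q := by rw [hq]; exact Nat.mul_le_mul_right _ hr2
  have hQq : 2 * q ≤ Q := by rw [hQ, ← hq]; exact Nat.mul_le_mul_right _ hr2
  -- the sums over the other vertices of an edge
  have hsum1 : ∀ e ∈ E, ∑ v ∈ e.erase u, (at' F v).card + 3 * q ≤ 3 * Q := by
    intro e he
    rw [hE, mem_sdiff, mem_at] at he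
    have h1 : ∑ v ∈ e.erase u, (at' F v).card ≤ (e.erase u).card * (3 * q) := by
      rw [← smul_eq_mul, ← sum_const]
      apply sum_le_sum
      intro v hv
      rw [mem_erase] at hv
      exact hb v hv.1 ⟨e, he.1.1, he.2, he.1.2, hv.2⟩
    have h2 := hr e he.1.1
    rw [card_erase_of_mem he.1.2] at h1
    have h3 : (e.card - 1) * (3 * q) ≤ (r - 1) * (3 * q) := Nat.mul_le_mul_right _ (by omega)
    have h4 : (r - 1) * (3 * q) + 3 * q = 3 * Q := by
      obtain ⟨s, rfl⟩ : ∃ s, r = s + 1 := ⟨r - 1, by omega⟩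
      rw [hQ, hq]
      simp only [Nat.add_sub_cancel]
      ring
    omega
  have hsum2 : ∀ e ∈ E, ¬ (e ∩ U.erase u).Nonempty → ∑ v ∈ e.erase u, (at' F v).card + m ≤ q := by
    intro e he hne
    rw [hE, mem_sdiff, mem_at] at he
    have h1 : ∑ v ∈ e.erase u, (at' F v).card ≤ (e.erase u).card * m := by
      rw [← smul_eq_mul, ← sum_const]
      apply sum_le_sum
      intro v hv
      rw [mem_erase] at hv
      refine (at_le hlin hF hFU ?_).trans hU
      intro hvU
      exact hne ⟨v, mem_inter.2 ⟨hv.2, mem_erase.2 ⟨hv.1, hvU⟩⟩⟩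
    have h2 := hr e he.1.1
    rw [card_erase_of_mem he.1.2] at h1
    have h3 : (e.card - 1) * m ≤ (r - 1) * m := Nat.mul_le_mul_right _ (by omega)
    have h4 : (r - 1) * m + m = q := by
      obtain ⟨s, rfl⟩ : ∃ s, r = s + 1 := ⟨r - 1, by omega⟩
      rw [hq]
      simp only [Nat.add_sub_cancel]
      ring
    omega
  have haE : (at' F u).card + E.card = (at' H u).card := by
    have h1 : at' F u ⊆ at' H u := by
      intro e he
      rw [mem_at] at he ⊢
      exact ⟨hF he.1, he.2⟩
    have h2 : E = at' H u \ at' F u := by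
      rw [hE]
      ext e
      simp only [mem_sdiff, mem_at]
      tauto
    rw [h2, card_sdiff_of_subset h1]
    have := card_le_card h1
    omega
  have husa := card_us hφ u
  obtain ⟨a, haa⟩ : ∃ a, a = (at' F u).card := ⟨_, rfl⟩
  rw [← haa] at ha haE husa hcase
  have husP : (us F φ u \ P).card + (P ∩ us F φ u).card = a := by
    rw [← husa, inter_comm]
    exact card_sdiff_add_card_inter _ _
  -- Hall's condition
  obtain ⟨ψ, hψ1, hψ2⟩ := hall E (red F L φ) (by
    intro S hS
    by_contra hcon
    rw [not_le] at hcon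
    set T := S.biUnion (red F L φ) with hT
    have hSE := card_le_card hS
    have hSne : S.Nonempty := card_pos.1 (by omega)
    have hTge : ∀ e ∈ S, (red F L φ e).card ≤ T.card := fun e he =>
      card_le_card (subset_biUnion_of_mem (red F L φ) he)
    have hred : ∀ e ∈ S, n ≤ (red F L φ e).card + a + ∑ v ∈ e.erase u, (at' F v).card := by
      intro e he
      have h1 := mem_at.1 (mem_sdiff.1 (hE ▸ hS he)).1
      have h2 := red_ge (F := F) L φ e u h1.2 ∅
      rw [sdiff_empty, sdiff_empty, sdiff_empty, husa] at h2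
      exact (hL e h1.1).trans h2
    obtain ⟨e₁, he₁⟩ := hSne
    have b1 := hred e₁ he₁
    have b2 := hsum1 e₁ (hS he₁)
    have b3 := hTge e₁ he₁
    have hSbig : n < S.card + 3 * Q := by omega
    -- the exceptional edges
    set X := S.filter (fun e => (e ∩ U.erase u).Nonempty) with hX
    have hXm : X.card ≤ m := by
      have h1 := two hlin (Finset.Subset.refl H) (v := u) (X := U.erase u) (by simp)
      have h2 : X ⊆ (at' H u).filter (fun e => (e ∩ U.erase u).Nonempty) := by
        intro e he
        rw [hX, mem_filter] at he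
        exact mem_filter.2 ⟨(mem_sdiff.1 (hE ▸ hS he.1)).1, he.2⟩
      have h3 := card_le_card h2
      have h4 := card_le_card (erase_subset u U)
      omega
    set Y := S.filter (fun e => ¬ (e ∩ U.erase u).Nonempty) with hY
    have hXY : X.card + Y.card = S.card := card_filter_add_card_filter_not _
    obtain ⟨e₀, he₀⟩ : Y.Nonempty := card_pos.1 (by omega)
    have he₀' := mem_filter.1 he₀
    have b4 := hred e₀ he₀'.1
    have b5 := hsum2 e₀ (hS he₀'.1) he₀'.2
    have b6 := hTge e₀ he₀'.1
    have b7 : n + m ≤ T.card + a + q := by omega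
    have hSc : (E \ S).card + S.card = E.card := by
      rw [card_sdiff_of_subset hS]
      omega
    have b8 : (E \ S).card + m + 2 ≤ q := by omega
    -- the unpopular colours
    have hpop : ∀ c, c ∉ T → c ∉ us F φ u → c ∉ P := by
      intro c hcT hcu hcP
      rw [hP, mem_pop] at hcP
      have h1 : (at' H u).filter (fun e => c ∈ L e) ⊆ at' F u ∪ (E \ S) ∪
          (at' H u).filter (fun e => ∃ f ∈ F.filter (fun f => φ f = c), (e ∩ f).Nonempty) := by
        intro e he
        rw [mem_filter] at he
        by_cases heF : e ∈ F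
        · exact mem_union_left _ (mem_union_left _ (mem_at.2 ⟨heF, (mem_at.1 he.1).2⟩))
        · by_cases heS : e ∈ S
          · refine mem_union_right _ (mem_filter.2 ⟨he.1, ?_⟩)
            have h2 : c ∉ red F L φ e := fun h => hcT (mem_biUnion.2 ⟨e, heS, h⟩)
            rw [mem_red] at h2
            push Not at h2
            obtain ⟨f, hf, hfe, hfc⟩ := h2 he.2
            exact ⟨f, mem_filter.2 ⟨hf, hfc⟩, by rwa [inter_comm]⟩
          · exact mem_union_left _ (mem_union_right _ (mem_sdiff.2
              ⟨mem_sdiff.2 ⟨he.1, heF⟩, heS⟩))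
      have h2 := (card_le_card h1).trans (card_union_le _ _)
      have h3 := card_union_le (at' F u) (E \ S)
      have h4 := blocked hlin hr hF (u := u) (F.filter (fun f => φ f = c)) (filter_subset _ _) (by
        intro f hf hfu
        rw [mem_filter] at hf
        exact hcu (hf.2 ▸ mem_image_of_mem _ (mem_at.2 ⟨hf.1, hfu⟩)))
      have h5 := cls_le hφ hFU c
      have h6 : (F.filter (fun f => φ f = c)).card * r ≤ m * r :=
        Nat.mul_le_mul_right _ (h5.trans hU)
      rw [mul_comm m r, ← hq] at h6
      unfold dc at hcP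
      omega
    have hPT : P \ us F φ u ⊆ T \ us F φ u := by
      intro c hc
      rw [mem_sdiff] at hc ⊢
      refine ⟨?_, hc.2⟩
      by_contra hcT
      exact hpop c hcT hc.2 hc.1
    have hTu : T \ us F φ u = T := by
      rw [Finset.sdiff_eq_self_iff_disjoint, disjoint_left]
      intro c hcT hcu
      rw [hT, mem_biUnion] at hcT
      obtain ⟨e, he, hce⟩ := hcT
      unfold us at hcu
      rw [mem_image] at hcu
      obtain ⟨f, hf, hfc⟩ := hcu
      have h1 := mem_at.1 (mem_sdiff.1 (hE ▸ hS he)).1
      have h2 := mem_at.1 hf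
      exact (mem_red.1 hce).2 f h2.1 ⟨u, mem_inter.2 ⟨h2.2, h1.2⟩⟩ hfc
    rw [hTu] at hPT
    have hPc : (P \ us F φ u).card + (P ∩ us F φ u).card = P.card := card_sdiff_add_card_inter _ _
    have hPT' := card_le_card hPT
    rcases hcase with h | h | ⟨h, h'⟩
    · -- few edges
      omega
    · -- exactness
      omega
    · -- few popular colours
      obtain ⟨x, hx⟩ : ∃ x, x = (us F φ u \ P).card := ⟨_, rfl⟩
      rw [← hx] at husP
      have hTP : (T \ P).card + (P \ us F φ u).card ≤ T.card := by
        have h1 : Disjoint (T \ P) (P \ us F φ u) := by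
          rw [disjoint_left]
          intro c hc hc'
          exact (mem_sdiff.1 hc).2 (mem_sdiff.1 hc').1
        rw [← card_union_of_disjoint h1]
        apply card_le_card
        intro c hc
        rw [mem_union] at hc
        rcases hc with hc | hc
        · exact (mem_sdiff.1 hc).1
        · exact hPT hc
      obtain ⟨y, hy⟩ : ∃ y, n = P.card + x + y := ⟨n - P.card - x, by omega⟩
      have hy2 : (T \ P).card + 2 ≤ y := by omega
      -- double counting
      have hY1 : ∀ e ∈ Y, y ≤ (red F L φ e \ P).card + (q - m) := by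
        intro e he
        have he' := mem_filter.1 he
        have h1 := mem_at.1 (mem_sdiff.1 (hE ▸ hS he'.1)).1
        have h2 := red_ge (F := F) L φ e u h1.2 P
        have h3 := hsum2 e (hS he'.1) he'.2
        have h4 := le_card_sdiff P (L e)
        have h5 := hL e h1.1
        omega
      have hY2 : Y.card * (y - (q - m)) ≤ ∑ e ∈ Y, (red F L φ e \ P).card := by
        rw [← smul_eq_mul, ← sum_const]
        apply sum_le_sum
        intro e he
        have := hY1 e he
        omega
      have hY3 : ∑ e ∈ Y, (red F L φ e \ P).card ≤ (T \ P).card * (5 * q) := by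
        have h1 : ∀ e ∈ Y, (red F L φ e \ P).card =
            ∑ c ∈ T \ P, if c ∈ red F L φ e then 1 else 0 := by
          intro e he
          rw [← card_filter]
          congr 1
          ext c
          simp only [mem_sdiff, mem_filter]
          constructor
          · rintro ⟨h1, h2⟩
            exact ⟨⟨mem_biUnion.2 ⟨e, (mem_filter.1 he).1, h1⟩, h2⟩, h1⟩
          · rintro ⟨⟨-, h2⟩, h1⟩
            exact ⟨h1, h2⟩
        rw [sum_congr rfl h1, sum_comm, ← smul_eq_mul, ← sum_const]
        apply sum_le_sum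
        intro c hc
        rw [← card_filter]
        have h2 : c ∉ P := (mem_sdiff.1 hc).2
        rw [hP, mem_pop, not_lt] at h2
        refine le_trans (card_le_card ?_) h2
        intro e he
        rw [mem_filter] at he
        refine mem_filter.2 ⟨(mem_sdiff.1 (hE ▸ hS (mem_filter.1 he.1).1)).1, ?_⟩
        exact (mem_red.1 he.2).1
      obtain ⟨z, hz⟩ : ∃ z, y = (q - m) + z := ⟨y - (q - m), by omega⟩
      have hz1 : y - (q - m) = z := by omega
      have hz2 : y ≤ 2 * z := by omega
      rw [hz1] at hY2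
      have h9 : Y.card * z ≤ (2 * z) * (5 * q) :=
        hY2.trans (hY3.trans (Nat.mul_le_mul_right _ (by omega)))
      have h10 : Y.card ≤ 10 * q := by
        have h11 : z * Y.card ≤ z * (10 * q) := by
          calc z * Y.card = Y.card * z := mul_comm _ _
            _ ≤ (2 * z) * (5 * q) := h9
            _ = z * (10 * q) := by ring
        exact Nat.le_of_mul_le_mul_left h11 (by omega)
      omega)
  refine ⟨ψ, hψ1, ?_⟩
  intro e he f hf hef _ heq
  exact hef (hψ2 e he f hf heq)

end

end Pool.Agent.Run7.h320
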