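import Pool.Agent.Run7.h320.Base
import Pool.Agent.TH559.LE.Red

/-!
# The list chromatic index of linear hypergraphs is at most three halves of the degree bound
-/

set_option autoImplicit false

namespace Pool.Agent.Run7.h320

open Finset K3h83.LK

section
variable {V : Type} [DecidableEq V]

/-- the edges with at least three vertices -/
theorem big3 {H : Finset (Finset V)}
    (hlin : ∀ e ∈ H, ∀ f ∈ H, e ≠ f → (e ∩ f).card ≤ 1) {D : ℕ}
    (hD : ∀ v, (clN H v).card ≤ D + 1) (L : Finset V → Finset ℕ)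
    (hL : ∀ e ∈ H, 3 * D / 2 ≤ (L e).card) :
    ∃ φ, Pr (H.filter (fun e => 3 ≤ e.card)) L φ := by
  refine greedy_ord L (fun e => e.card) _ _ rfl ?_
  intro e he
  rw [mem_filter] at he
  have h1 := conflicts (G := insert e ((H.filter (fun e => 3 ≤ e.card)).filter
    (fun f => e.card ≤ f.card))) hlin hD he.1 (by
      intro f hf
      rw [mem_insert, mem_filter, mem_filter] at hf
      rcases hf with rfl | hf
      · exact he.1
      · exact hf.1.1) (q := e.card - 1) (by
      intro f hf hfe
      rw [mem_insert, mem_filter, mem_filter] at hf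
      rcases hf with rfl | hf
      · exact absurd rfl hfe
      · omega)
  have h2 : ((H.filter (fun e => 3 ≤ e.card)).filter
      (fun f => f ≠ e ∧ (f ∩ e).Nonempty ∧ e.card ≤ f.card)).card ≤
      ((insert e ((H.filter (fun e => 3 ≤ e.card)).filter
        (fun f => e.card ≤ f.card))).filter (fun f => f ≠ e ∧ (f ∩ e).Nonempty)).card := by
    apply card_le_card
    intro f hf
    rw [mem_filter] at hf
    rw [mem_filter, mem_insert, mem_filter]
    exact ⟨Or.inr ⟨hf.1, hf.2.2.2⟩, hf.2.1, hf.2.2.1⟩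
  set F := ((H.filter (fun e => 3 ≤ e.card)).filter
      (fun f => f ≠ e ∧ (f ∩ e).Nonempty ∧ e.card ≤ f.card)).card with hF
  have h3 : (e.card - 1) * F ≤ e.card * (D + 1 - e.card) :=
    (Nat.mul_le_mul_left _ h2).trans h1
  have h4 := hL e he.1
  by_contra hcon
  have h5 : 3 * D / 2 ≤ F := by omega
  obtain ⟨v, hv⟩ : e.Nonempty := card_pos.1 (by omega)
  have heD : e.card ≤ D + 1 := by
    refine (card_le_card ?_).trans (hD v)
    intro x hx
    exact mem_biUnion.2 ⟨e, mem_filter.2 ⟨he.1, hv⟩, hx⟩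
  obtain ⟨s, hs⟩ : ∃ s, e.card = s + 3 := ⟨e.card - 3, by omega⟩
  obtain ⟨y, hy⟩ : ∃ y, D + 1 = s + 3 + y := ⟨D + 1 - (s + 3), by omega⟩
  rw [hs, hy] at h3
  have e1 : s + 3 - 1 = s + 2 := by omega
  have e2 : s + 3 + y - (s + 3) = y := by omega
  rw [e1, e2] at h3
  have h6 : 3 * D - 1 ≤ 2 * F := by omega
  have h7 : 3 * (s + 2 + y) ≤ 2 * F + 1 := by omega
  have h8 : (s + 2) * (3 * (s + 2 + y)) ≤ (s + 2) * (2 * F + 1) := Nat.mul_le_mul_left _ h7
  nlinarith

/-- the number of edges of a set `G` of edges that contain `v` -/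
def cnt (G : Finset (Finset V)) (v : V) : ℕ := (G.filter (fun e => v ∈ e)).card

theorem cnt_pair (G : Finset (Finset V)) (x y : V) :
    (G.filter (fun f => (f ∩ {x, y}).Nonempty)).card ≤ cnt G x + cnt G y := by
  refine le_trans (card_le_card ?_) (card_union_le _ _)
  intro f hf
  rw [mem_filter] at hf
  obtain ⟨z, hz⟩ := hf.2
  rw [mem_inter, mem_insert, mem_singleton] at hz
  rw [mem_union, mem_filter, mem_filter]
  rcases hz.2 with h | h
  · subst h
    exact Or.inl ⟨hf.1, hz.1⟩
  · subst h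
    exact Or.inr ⟨hf.1, hz.1⟩

theorem cnt_pair' (G : Finset (Finset V)) (x y : V) (h : {x, y} ∈ G) :
    (G.filter (fun f => f ≠ {x, y} ∧ (f ∩ {x, y}).Nonempty)).card + 2 ≤ cnt G x + cnt G y := by
  have h1 : (G.filter (fun f => f ≠ {x, y} ∧ (f ∩ {x, y}).Nonempty)).card ≤
      ((G.filter (fun f => x ∈ f)).erase {x, y}).card +
      ((G.filter (fun f => y ∈ f)).erase {x, y}).card := by
    refine le_trans (card_le_card ?_) (card_union_le _ _)
    intro f hf
    rw [mem_filter] at hf
    obtain ⟨hf1, hf2, z, hz⟩ := hf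
    rw [mem_inter, mem_insert, mem_singleton] at hz
    rw [mem_union, mem_erase, mem_erase, mem_filter, mem_filter]
    rcases hz.2 with h | h
    · subst h
      exact Or.inl ⟨hf2, hf1, hz.1⟩
    · subst h
      exact Or.inr ⟨hf2, hf1, hz.1⟩
  have hx : ({x, y} : Finset V) ∈ G.filter (fun f => x ∈ f) := mem_filter.2 ⟨h, by simp⟩
  have hy : ({x, y} : Finset V) ∈ G.filter (fun f => y ∈ f) := mem_filter.2 ⟨h, by simp⟩
  rw [card_erase_of_mem hx, card_erase_of_mem hy] at h1
  have h2 := card_pos.2 ⟨_, hx⟩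
  have h3 := card_pos.2 ⟨_, hy⟩
  unfold cnt
  omega

theorem red_card (G : Finset (Finset V)) (L : Finset V → Finset ℕ) (φ : Finset V → ℕ) (x y : V) :
    (L {x, y}).card ≤ (red G L φ {x, y}).card + (cnt G x + cnt G y) := by
  have h1 := cnt_pair G x y
  have h2 := card_image_le (s := G.filter (fun f => (f ∩ {x, y}).Nonempty)) (f := φ)
  have h3 := le_card_sdiff ((G.filter (fun f => (f ∩ {x, y}).Nonempty)).image φ) (L {x, y})
  unfold red
  omega

theorem threeHalves [Fintype V] {H : Finset (Finset V)}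
    (hlin : ∀ e ∈ H, ∀ f ∈ H, e ≠ f → (e ∩ f).card ≤ 1) (h2 : ∀ e ∈ H, 2 ≤ e.card) {D : ℕ}
    (hD : ∀ v, (clN H v).card ≤ D + 1) (L : Finset V → Finset ℕ)
    (hL : ∀ e ∈ H, 3 * D / 2 ≤ (L e).card) :
    ∃ φ, Pr H L φ := by
  classical
  rcases H.eq_empty_or_nonempty with rfl | ⟨e₀, he₀⟩
  · exact ⟨fun _ => 0, by simp, by simp⟩
  have hVne : Nonempty V := by
    obtain ⟨v, -⟩ : e₀.Nonempty := card_pos.1 (by have := h2 e₀ he₀; omega)
    exact ⟨v⟩
  obtain ⟨φ₁, hφ₁⟩ := big3 hlin hD L hL
  set G1 := H.filter (fun e => 3 ≤ e.card) with hG1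
  let Gr : SimpleGraph V :=
    { Adj := fun x y => x ≠ y ∧ {x, y} ∈ H
      symm := ⟨fun x y h => ⟨h.1.symm, by rw [pair_comm]; exact h.2⟩⟩
      loopless := ⟨fun x h => h.1 rfl⟩ }
  obtain ⟨X, hX⟩ := Pool.Agent.TH559.LE.cut Gr
  set G2 := H.filter (fun e => e.card = 2 ∧ ∀ x ∈ e, ∀ y ∈ e, X x ↔ X y) with hG2
  set G3 := H.filter (fun e => e.card = 2 ∧ ¬ ∀ x ∈ e, ∀ y ∈ e, X x ↔ X y) with hG3
  have hmem2 : ∀ x y, x ≠ y → (({x, y} : Finset V) ∈ G2 ↔ {x, y} ∈ H ∧ (X x ↔ X y)) := by
    intro x y hxy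
    rw [hG2, mem_filter]
    constructor
    · rintro ⟨h1, -, h3⟩
      exact ⟨h1, h3 x (by simp) y (by simp)⟩
    · rintro ⟨h1, h3⟩
      refine ⟨h1, card_pair hxy, ?_⟩
      intro a ha b hb
      rw [mem_insert, mem_singleton] at ha hb
      rcases ha with rfl | rfl <;> rcases hb with rfl | rfl <;> tauto
  have hmem3 : ∀ x y, x ≠ y → (({x, y} : Finset V) ∈ G3 ↔ {x, y} ∈ H ∧ ¬ (X x ↔ X y)) := by
    intro x y hxy
    rw [hG3, mem_filter]
    constructor
    · rintro ⟨h1, -, h3⟩
      refine ⟨h1, fun h4 => h3 ?_⟩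
      intro a ha b hb
      rw [mem_insert, mem_singleton] at ha hb
      rcases ha with rfl | rfl <;> rcases hb with rfl | rfl <;> tauto
    · rintro ⟨h1, h3⟩
      exact ⟨h1, card_pair hxy, fun h4 => h3 (h4 x (by simp) y (by simp))⟩
  -- the degrees
  have hin : ∀ u, (univ.filter (fun v => Gr.Adj u v ∧ (X u ↔ X v))).card = cnt G2 u := by
    intro u
    unfold cnt
    refine card_bij (fun v _ => {u, v}) ?_ ?_ ?_
    · intro v hv
      rw [mem_filter] at hv
      rw [mem_filter]
      exact ⟨(hmem2 u v hv.2.1.1).2 ⟨hv.2.1.2, hv.2.2⟩, by simp⟩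
    · intro a ha b hb hab
      rw [mem_filter] at ha hb
      have h3 : a ∈ ({u, b} : Finset V) := by
        rw [← hab]
        simp
      rw [mem_insert, mem_singleton] at h3
      exact h3.resolve_left (Ne.symm ha.2.1.1)
    · intro e he
      rw [mem_filter] at he
      have he2 : e.card = 2 := (mem_filter.1 he.1).2.1
      obtain ⟨a, b, hab, rfl⟩ := card_eq_two.1 he2
      have h3 := he.2
      rw [mem_insert, mem_singleton] at h3
      rcases h3 with rfl | rfl
      · have := (hmem2 _ _ hab).1 he.1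
        exact ⟨b, mem_filter.2 ⟨mem_univ _, ⟨hab, this.1⟩, this.2⟩, rfl⟩
      · have := (hmem2 _ _ hab).1 he.1
        refine ⟨a, mem_filter.2 ⟨mem_univ _, ⟨hab.symm, ?_⟩, this.2.symm⟩, pair_comm _ _⟩
        rw [pair_comm]
        exact this.1
  have hout : ∀ u, (univ.filter (fun v => Gr.Adj u v ∧ ¬ (X u ↔ X v))).card = cnt G3 u := by
    intro u
    unfold cnt
    refine card_bij (fun v _ => {u, v}) ?_ ?_ ?_
    · intro v hv
      rw [mem_filter] at hv
      rw [mem_filter]
      exact ⟨(hmem3 u v hv.2.1.1).2 ⟨hv.2.1.2, hv.2.2⟩, by simp⟩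
    · intro a ha b hb hab
      rw [mem_filter] at ha hb
      have h3 : a ∈ ({u, b} : Finset V) := by
        rw [← hab]
        simp
      rw [mem_insert, mem_singleton] at h3
      exact h3.resolve_left (Ne.symm ha.2.1.1)
    · intro e he
      rw [mem_filter] at he
      have he2 : e.card = 2 := (mem_filter.1 he.1).2.1
      obtain ⟨a, b, hab, rfl⟩ := card_eq_two.1 he2
      have h3 := he.2
      rw [mem_insert, mem_singleton] at h3
      rcases h3 with rfl | rfl
      · have := (hmem3 _ _ hab).1 he.1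
        exact ⟨b, mem_filter.2 ⟨mem_univ _, ⟨hab, this.1⟩, this.2⟩, rfl⟩
      · have := (hmem3 _ _ hab).1 he.1
        refine ⟨a, mem_filter.2 ⟨mem_univ _, ⟨hab.symm, ?_⟩, fun h => this.2 h.symm⟩,
          pair_comm _ _⟩
        rw [pair_comm]
        exact this.1
  have hio : ∀ u, cnt G2 u ≤ cnt G3 u := by
    intro u
    rw [← hin, ← hout]
    convert hX u
  have hdeg : ∀ u, cnt G2 u + cnt G3 u + 2 * cnt G1 u ≤ D := by
    intro u
    have h3 := budget hlin u
    have h4 := hD u
    have h5 : ∑ e ∈ G1.filter (fun e => u ∈ e), (e.card - 1) +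
        (∑ e ∈ G2.filter (fun e => u ∈ e), (e.card - 1) +
        ∑ e ∈ G3.filter (fun e => u ∈ e), (e.card - 1)) ≤
        ∑ e ∈ H.filter (fun e => u ∈ e), (e.card - 1) := by
      rw [← sum_union, ← sum_union]
      · apply sum_le_sum_of_subset
        intro e he
        simp only [mem_union, mem_filter, hG1, hG2, hG3] at he
        rw [mem_filter]
        tauto
      · rw [disjoint_left]
        intro e he he'
        simp only [mem_union, mem_filter, hG2, hG3] at he'
        simp only [mem_filter, hG1] at he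
        have : e.card = 2 := by tauto
        omega
      · rw [disjoint_left]
        intro e he he'
        simp only [mem_filter, hG3] at he'
        simp only [mem_filter, hG2] at he
        exact he'.1.2.2 he.1.2.2
    have h6 : ∀ G : Finset (Finset V), (∀ e ∈ G, 2 ≤ e.card) → cnt G u ≤
        ∑ e ∈ G.filter (fun e => u ∈ e), (e.card - 1) := by
      intro G hG
      unfold cnt
      rw [card_eq_sum_ones]
      apply sum_le_sum
      intro e he
      have := hG e (mem_filter.1 he).1
      omega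
    have h7 : 2 * cnt G1 u ≤ ∑ e ∈ G1.filter (fun e => u ∈ e), (e.card - 1) := by
      unfold cnt
      rw [card_eq_sum_ones, mul_sum]
      apply sum_le_sum
      intro e he
      have := (mem_filter.1 (mem_filter.1 he).1).2
      omega
    have h8 := h6 G2 (fun e he => h2 e (mem_filter.1 he).1)
    have h9 := h6 G3 (fun e he => h2 e (mem_filter.1 he).1)
    omega
  -- the inner edges
  obtain ⟨φ₂, hφ₂⟩ := greedy (red G1 L φ₁) G2 (by
    intro e he
    have he2 : e.card = 2 := (mem_filter.1 he).2.1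
    obtain ⟨x, y, hxy, rfl⟩ := card_eq_two.1 he2
    have h3 := cnt_pair' G2 x y he
    have h4 := red_card G1 L φ₁ x y
    have h5 := hL _ (mem_filter.1 he).1
    have := hdeg x
    have := hdeg y
    have := hio x
    have := hio y
    omega)
  obtain ⟨φ₃, hφ₃, -, -⟩ := glue hφ₁ hφ₂
  -- the crossing edges
  obtain ⟨ψ, hψ⟩ := Pool.Agent.TH559.LE.bkw
    (univ.filter (fun p : V × V => X p.1 ∧ ¬ X p.2 ∧ {p.1, p.2} ∈ H))
    (fun p => red (G1 ∪ G2) L φ₃ {p.1, p.2}) (by
      rintro ⟨x, y⟩ hp
      rw [mem_filter] at hp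
      obtain ⟨-, hx, hy, hxy⟩ := hp
      simp only at hx hy hxy ⊢
      have hne : x ≠ y := by
        rintro rfl
        exact hy hx
      have h3 := red_card (G1 ∪ G2) L φ₃ x y
      have h5 := hL _ hxy
      have h6 : ∀ v, cnt (G1 ∪ G2) v ≤ cnt G1 v + cnt G2 v := by
        intro v
        unfold cnt
        rw [filter_union]
        exact card_union_le _ _
      have h7 := h6 x
      have h8 := h6 y
      have h9 : ((univ.filter (fun p : V × V => X p.1 ∧ ¬ X p.2 ∧ {p.1, p.2} ∈ H)).filter
          (fun f => f.1 = x)).card ≤ cnt G3 x := by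
        unfold cnt
        refine card_le_card_of_injOn (fun p => {p.1, p.2}) ?_ ?_
        · rintro ⟨a, b⟩ hp
          rw [mem_coe, mem_filter, mem_filter] at hp
          obtain ⟨⟨-, ha, hb, hab⟩, rfl⟩ := hp
          simp only at ha hb hab
          have hne' : a ≠ b := by
            rintro rfl
            exact hb ha
          rw [mem_coe, mem_filter]
          exact ⟨(hmem3 a b hne').2 ⟨hab, by tauto⟩, by simp⟩
        · rintro ⟨a, b⟩ hp ⟨a', b'⟩ hp' heq
          rw [mem_coe, mem_filter, mem_filter] at hp hp'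
          obtain ⟨⟨-, ha, hb, hab⟩, h1⟩ := hp
          obtain ⟨⟨-, ha', hb', hab'⟩, h1'⟩ := hp'
          simp only at ha hb hab h1 ha' hb' hab' h1' heq
          subst h1
          subst h1'
          have h3 : b ∈ ({a', b'} : Finset V) := by
            rw [← heq]
            simp
          rw [mem_insert, mem_singleton] at h3
          rcases h3 with rfl | rfl
          · exact absurd ha' hb
          · rfl
      have h10 : ((univ.filter (fun p : V × V => X p.1 ∧ ¬ X p.2 ∧ {p.1, p.2} ∈ H)).filter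
          (fun f => f.2 = y)).card ≤ cnt G3 y := by
        unfold cnt
        refine card_le_card_of_injOn (fun p => {p.1, p.2}) ?_ ?_
        · rintro ⟨a, b⟩ hp
          rw [mem_coe, mem_filter, mem_filter] at hp
          obtain ⟨⟨-, ha, hb, hab⟩, rfl⟩ := hp
          simp only at ha hb hab
          have hne' : a ≠ b := by
            rintro rfl
            exact hb ha
          rw [mem_coe, mem_filter]
          exact ⟨(hmem3 a b hne').2 ⟨hab, by tauto⟩, by simp⟩
        · rintro ⟨a, b⟩ hp ⟨a', b'⟩ hp' heq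
          rw [mem_coe, mem_filter, mem_filter] at hp hp'
          obtain ⟨⟨-, ha, hb, hab⟩, h1⟩ := hp
          obtain ⟨⟨-, ha', hb', hab'⟩, h1'⟩ := hp'
          simp only at ha hb hab h1 ha' hb' hab' h1' heq
          subst h1
          subst h1'
          have h3 : a ∈ ({a', b'} : Finset V) := by
            rw [← heq]
            simp
          rw [mem_insert, mem_singleton] at h3
          rcases h3 with rfl | rfl
          · rfl
          · exact absurd ha hb'
      have := hdeg x
      have := hdeg y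
      have := hio x
      have := hio y
      rw [max_le_iff]
      constructor
      · omega
      · omega)
  -- the orientation of a crossing edge
  have hor : ∀ e ∈ G3, ∃ p : V × V, e = {p.1, p.2} ∧ X p.1 ∧ ¬ X p.2 := by
    intro e he
    have he2 : e.card = 2 := (mem_filter.1 he).2.1
    obtain ⟨x, y, hxy, rfl⟩ := card_eq_two.1 he2
    have h3 := ((hmem3 x y hxy).1 he).2
    by_cases hx : X x
    · exact ⟨(x, y), rfl, hx, by tauto⟩
    · exact ⟨(y, x), pair_comm _ _, by tauto, hx⟩
  choose! q hq1 hq2 hq3 using hor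
  have h12 : Pr G3 (red (G1 ∪ G2) L φ₃) (fun e => ψ (q e)) := by
    constructor
    · intro e he
      have h3 := (hψ (q e) (mem_filter.2 ⟨mem_univ _, hq2 e he, hq3 e he, by
        rw [← hq1 e he]
        exact (mem_filter.1 he).1⟩)).1
      rw [← hq1 e he] at h3
      exact h3
    · intro e he f hf hef hne
      have h3 := (hψ (q f) (mem_filter.2 ⟨mem_univ _, hq2 f hf, hq3 f hf, by
        rw [← hq1 f hf]
        exact (mem_filter.1 hf).1⟩)).2 (q e) (mem_filter.2 ⟨mem_univ _, hq2 e he, hq3 e he, by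
        rw [← hq1 e he]
        exact (mem_filter.1 he).1⟩) (by
          intro h
          apply hef
          rw [hq1 e he, hq1 f hf, h])
      apply h3
      obtain ⟨z, hz⟩ := hne
      rw [mem_inter, hq1 e he, hq1 f hf, mem_insert, mem_insert, mem_singleton, mem_singleton] at hz
      have a1 := hq2 e he
      have a2 := hq3 e he
      have a3 := hq2 f hf
      have a4 := hq3 f hf
      rcases hz with ⟨h4 | h4, h5 | h5⟩
      · left
        rw [← h4, ← h5]
      · rw [h4] at h5
        rw [h5] at a1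
        exact absurd a1 a4
      · rw [h4] at h5
        rw [h5] at a2
        exact absurd a3 a2
      · right
        rw [← h4, ← h5]
  obtain ⟨φ, hφ, -, -⟩ := glue hφ₃ h12
  refine ⟨φ, ?_⟩
  have h13 : H ⊆ G1 ∪ G2 ∪ G3 := by
    intro e he
    have := h2 e he
    simp only [mem_union, hG1, hG2, hG3, mem_filter]
    by_cases h3 : 3 ≤ e.card
    · exact Or.inl (Or.inl ⟨he, h3⟩)
    · have : e.card = 2 := by omega
      by_cases h4 : ∀ x ∈ e, ∀ y ∈ e, X x ↔ X y
      · exact Or.inl (Or.inr ⟨he, this, h4⟩)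
      · exact Or.inr ⟨he, this, h4⟩
  exact ⟨fun e he => hφ.1 e (h13 he), fun e he f hf => hφ.2 e (h13 he) f (h13 hf)⟩

end

end Pool.Agent.Run7.h320
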